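import Pool.Agent.Q269.SL.Cls

/-!
# The law in a class of twists: one family
-/

set_option autoImplicit false
set_option linter.all false

namespace Pool.Agent.Q269.SL

open Finset Polynomial Filter Topology
open Pool.Agent.Q269.MF
open Pool.Agent.Y164.SZ (L AT BT ok SYM0 SYM FDat Triv kLI AS nb KerP)
open Pool.Agent.Y164.HG (Geo Tau QQ EW cur F2 kc)
open Pool.Agent.Y164.PS (Sf mem_Sf Fam)
open Pool.Agent.Y261.SZ (nb_lower)
open scoped Classical

theorem bet_nonneg : 0 ≤ bet := by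
  apply ge_of_tendsto bet_tendsto
  refine Eventually.of_forall fun n => prod_nonneg fun i _ => ?_
  have : (1 / 2 : ℝ) ^ (2 * i + 1) ≤ 1 := pow_le_one₀ (by norm_num) (by norm_num)
  linarith

/-- the law in a class -/
noncomputable def lawc (c : ZMod 2) (e : ℕ) : ℝ := u2 bet e ((e : ZMod 2) = c)

theorem lawc_eq (c : ZMod 2) (e : ℕ) :
    lawc c e = if (e : ZMod 2) = c then 2 * law2 e else 0 := by
  rw [lawc, u2, law2]
  by_cases h : (e : ZMod 2) = c
  · rw [if_pos h, if_pos h]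
    ring
  · rw [if_neg h, if_neg h]

theorem lawc_nonneg (c : ZMod 2) (e : ℕ) : 0 ≤ lawc c e := by
  rw [lawc_eq]
  split_ifs
  · have := law2_nonneg e
    linarith
  · exact le_rfl

theorem hasSum_lawc (c : ZMod 2) : HasSum (lawc c) 1 := by
  have h1 := hasSum_ce
  have hb : ∀ e, 0 ≤ bet * ce e := fun e => mul_nonneg bet_nonneg (ce_pos e).le
  have s1 : Summable (fun e : ℕ => if (e : ZMod 2) = c then bet * ce e else 0) :=
    Summable.of_nonneg_of_le (fun e => by split_ifs; exact hb e; exact le_rfl)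
      (fun e => by split_ifs; exact le_rfl; exact hb e) h1.summable
  have s2 : Summable (fun e : ℕ => if ((e + 1 : ℕ) : ZMod 2) = c then bet * ce e else 0) :=
    Summable.of_nonneg_of_le (fun e => by split_ifs; exact hb e; exact le_rfl)
      (fun e => by split_ifs; exact le_rfl; exact hb e) h1.summable
  have e1 : (fun e : ℕ => (if (e : ZMod 2) = c then bet * ce e else 0) +
      (if ((e + 1 : ℕ) : ZMod 2) = c then bet * ce e else 0)) = fun e => bet * ce e := by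
    funext e
    have key : ∀ x y : ZMod 2, (x = y ∧ ¬ (x + 1 = y)) ∨ (¬ (x = y) ∧ x + 1 = y) := by decide
    push_cast
    rcases key (e : ZMod 2) c with ⟨h2, h3⟩ | ⟨h2, h3⟩
    · rw [if_pos h2, if_neg h3, add_zero]
    · rw [if_neg h2, if_pos h3, zero_add]
  have h2 := s1.hasSum.add s2.hasSum
  rw [e1] at h2
  have h3 := h2.unique h1
  have h4 : HasSum (fun e : ℕ => if (e : ZMod 2) = c then bet * (ce e * (2 ^ e - 1)) else 0)
      (∑' e : ℕ, (if ((e + 1 : ℕ) : ZMod 2) = c then bet * ce e else 0)) := by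
    rw [← hasSum_nat_add_iff' 1]
    simp only [range_one, sum_singleton, pow_zero, sub_self, mul_zero, ite_self, sub_zero]
    simp only [ce_succ]
    exact s2.hasSum
  have h5 := s1.hasSum.add h4
  rw [h3] at h5
  have h6 : (fun e : ℕ => (if (e : ZMod 2) = c then bet * ce e else 0) +
      (if (e : ZMod 2) = c then bet * (ce e * (2 ^ e - 1)) else 0)) = lawc c := by
    funext e
    rw [lawc, u2, lam2_eq]
    split_ifs
    · ring
    · ring
  rw [h6] at h5
  exact h5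

theorem probc_fin (c : ZMod 2) (𝒜 : Set ℕ) {ε : ℝ} (hε : 0 < ε) : ∃ 𝒮 : Finset ℕ,
    (∀ e ∈ 𝒮, e ∈ 𝒜) ∧ (∑' e : ℕ, if e ∈ 𝒜 then lawc c e else 0) - ε ≤ ∑ e ∈ 𝒮, lawc c e := by
  have hs : Summable (fun e : ℕ => if e ∈ 𝒜 then lawc c e else 0) :=
    Summable.of_nonneg_of_le (fun e => by split_ifs; exact lawc_nonneg c e; exact le_rfl)
      (fun e => by split_ifs; exact le_rfl; exact lawc_nonneg c e) (hasSum_lawc c).summable
  obtain ⟨S, hS⟩ := ((hs.hasSum.eventually_const_lt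
    (show (∑' e : ℕ, if e ∈ 𝒜 then lawc c e else 0) - ε < _ by linarith))).exists
  refine ⟨S.filter (· ∈ 𝒜), fun e he => (mem_filter.1 he).2, ?_⟩
  rw [sum_filter]
  exact hS.le

section one
variable {k : Type} [Field k] [Fintype k] [DecidableEq k]
variable {n : ℕ} [Fact (Odd n)] {a : Fin n → k[X]} {N : ℕ} (H : Geo a N)

/-- the class condition for one family -/
def clo (H : Geo a N) (σ : Tau a → ZMod 2) (D : k[X]) : Prop :=
  ∀ s : Tau a, σ s = L 2 D (QQ a s) + (H.dat 0).g s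

/-- the class -/
noncomputable def Cl (H : Geo a N) (σ : Tau a → ZMod 2) (m : ℕ) : Finset k[X] :=
  (Sf k m).filter fun D => nb (QQ a) D ∧ clo H σ D

theorem nb_one (D : k[X]) : nb (Q2 (R := Unit) (n := fun _ => n) fun _ => a) D ↔ nb (QQ a) D :=
  ⟨fun h s => h ⟨(), s⟩, fun h x => h x.2⟩

theorem card_one : Fintype.card (Σ r : Unit, Tau a) = Fintype.card (Tau a) := by
  rw [Fintype.card_sigma, univ_unique, sum_singleton]

theorem gcla_one (σ : Tau a → ZMod 2) (D : k[X]) :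
    gcla (fun x : (Σ r : Unit, Tau a) => σ x.2)
      (gM (datT (R := Unit) (n := fun _ => n) (a := fun _ => a) (N := fun _ => N)
        (fun _ => H) 0)) (Q2 (R := Unit) (n := fun _ => n) fun _ => a) D ↔ clo H σ D := by
  have key : ∀ x y z : ZMod 2, x + y + z = 0 ↔ x = y + z := by decide
  constructor
  · intro h s
    exact (key _ _ _).1 (h ⟨(), s⟩)
  · intro h x
    exact (key _ _ _).2 (h x.2)

include H in
/-- lower bounds in a class, one family, finite sets -/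
theorem one_fin (hi : IsSquare (-1 : k)) (hchar : ringChar k ≠ 2) (hq : 4 ≤ Fintype.card k)
    (K : Type) [Field K] [Algebra k[X] K] [IsFractionRing k[X] K]
    (σ : Tau a → ZMod 2) (𝒮 : Finset ℕ) {ε : ℝ} (hε : 0 < ε) :
    ∀ᶠ m : ℕ in atTop, Odd (m + N) →
      (∑ e ∈ 𝒮, lawc ((Fintype.card (Tau a) : ZMod 2) + ∑ s, σ s) e - ε) *
        (((Sf k m).filter (nb (QQ a))).card : ℝ) ≤
      (2 : ℝ) ^ Fintype.card (Tau a) *
        (((Cl H σ m).filter fun D => ∃ e ∈ 𝒮, BoundedBy (cur K a D) k[X] (2 ^ e)).card : ℝ) := by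
  have hF : Fam (Q2 (R := Unit) (n := fun _ => n) fun _ => a) := by
    refine Q2_fam (N := fun _ => N) (fun _ => H) ?_
    intro r r' h
    exact absurd (Subsingleton.elim r r') h
  have h := cls_lower (R := Unit) (n := fun _ => n) (a := fun _ => a) (N := fun _ => N)
    (fun _ => H) hi hchar hq hF K (fun x => σ x.2) (𝒮.image fun e _ => e) hε
  filter_upwards [h] with m hm ho
  have h1 := hm fun _ => ho
  have e1 : (Sf k m).filter (nb (Q2 (R := Unit) (n := fun _ => n) fun _ => a)) =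
      (Sf k m).filter (nb (QQ a)) := filter_congr fun D _ => nb_one D
  have e2 : ∑ e ∈ 𝒮.image (fun (e : ℕ) (_ : Unit) => e), ∏ r, u2 bet (e r)
      (parx (τ := fun _ : Unit => Tau a) e (fun x => σ x.2) r) =
      ∑ e ∈ 𝒮, lawc ((Fintype.card (Tau a) : ZMod 2) + ∑ s, σ s) e := by
    rw [sum_image (fun x _ y _ h => congrFun h ())]
    refine sum_congr rfl fun e _ => ?_
    rw [univ_unique, prod_singleton]
    rfl
  rw [e1, e2, card_one] at h1
  refine h1.trans (mul_le_mul_of_nonneg_left ?_ (by positivity))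
  have h2 : (Sf k m).filter (P2a (GoodX K (fun _ : Unit => a) (𝒮.image fun e _ => e))
      (fun x => σ x.2) (gM (datT (R := Unit) (n := fun _ => n) (a := fun _ => a) (N := fun _ => N)
        (fun _ => H) 0)) (Q2 (R := Unit) (n := fun _ => n) fun _ => a)) ⊆
      (Cl H σ m).filter fun D => ∃ e ∈ 𝒮, BoundedBy (cur K a D) k[X] (2 ^ e) := by
    intro D hD
    obtain ⟨g1, ⟨g2, g3⟩, e', he', g4⟩ := mem_filter.1 hD
    obtain ⟨e, he, rfl⟩ := mem_image.1 he'
    exact mem_filter.2 ⟨mem_filter.2 ⟨g1, (nb_one D).1 g2, (gcla_one H σ D).1 g3⟩, e, he, g4 ()⟩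
  exact_mod_cast card_le_card h2

theorem Cl_disj (m : ℕ) {σ σ' : Tau a → ZMod 2} (h : σ ≠ σ') : Disjoint (Cl H σ m) (Cl H σ' m) := by
  rw [disjoint_left]
  intro D h1 h2
  apply h
  funext s
  rw [(mem_filter.1 h1).2.2 s, (mem_filter.1 h2).2.2 s]

theorem Cl_sum (m : ℕ) : ∑ σ : Tau a → ZMod 2, (Cl H σ m).card =
    ((Sf k m).filter (nb (QQ a))).card := by
  rw [← card_biUnion fun σ _ σ' _ h => Cl_disj H m h]
  congr 1
  ext D
  simp only [mem_biUnion, mem_univ, true_and, Cl, mem_filter]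
  constructor
  · rintro ⟨σ, h1, h2, h3⟩
    exact ⟨h1, h2⟩
  · rintro ⟨h1, h2⟩
    exact ⟨fun s => L 2 D (QQ a s) + (H.dat 0).g s, h1, h2, fun s => rfl⟩

include H in
/-- the sizes of the classes -/
theorem cls_size (hi : IsSquare (-1 : k)) (hchar : ringChar k ≠ 2) (hq : 4 ≤ Fintype.card k)
    (σ : Tau a → ZMod 2) {ε : ℝ} (hε : 0 < ε) :
    ∀ᶠ m : ℕ in atTop, Odd (m + N) →
      (1 - ε) * (((Sf k m).filter (nb (QQ a))).card : ℝ) ≤
        (2 : ℝ) ^ Fintype.card (Tau a) * ((Cl H σ m).card : ℝ) ∧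
      (2 : ℝ) ^ Fintype.card (Tau a) * ((Cl H σ m).card : ℝ) ≤
        (1 + ε) * (((Sf k m).filter (nb (QQ a))).card : ℝ) := by
  obtain ⟨t, ht⟩ : ∃ t, t = Fintype.card (Tau a) := ⟨_, rfl⟩
  have h2t : (0 : ℝ) < 2 ^ t := by positivity
  have hδ : 0 < ε / 2 ^ t := by positivity
  have hlow : ∀ σ : Tau a → ZMod 2, ∀ᶠ m : ℕ in atTop, Odd (m + N) →
      (1 - ε / 2 ^ t) * (((Sf k m).filter (nb (QQ a))).card : ℝ) ≤
        (2 : ℝ) ^ t * ((Cl H σ m).card : ℝ) := by
    intro σ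
    obtain ⟨𝒮, -, h𝒮⟩ := probc_fin ((Fintype.card (Tau a) : ZMod 2) + ∑ s, σ s) Set.univ
      (half_pos hδ)
    simp only [Set.mem_univ, if_true, (hasSum_lawc _).tsum_eq] at h𝒮
    filter_upwards [one_fin H hi hchar hq (FractionRing k[X]) σ 𝒮 (half_pos hδ)] with m hm ho
    have h1 := hm ho
    rw [show ((2 : ℝ) ^ Fintype.card (Tau a)) = 2 ^ t by rw [ht]] at h1
    have h3 : (((Cl H σ m).filter fun D => ∃ e ∈ 𝒮, BoundedBy (cur (FractionRing k[X]) a D)
        k[X] (2 ^ e)).card : ℝ) ≤ ((Cl H σ m).card : ℝ) := by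
      exact_mod_cast card_le_card (filter_subset _ _)
    have h4 : (1 - ε / 2 ^ t) * (((Sf k m).filter (nb (QQ a))).card : ℝ) ≤
        (∑ e ∈ 𝒮, lawc ((Fintype.card (Tau a) : ZMod 2) + ∑ s, σ s) e - ε / 2 ^ t / 2) *
        (((Sf k m).filter (nb (QQ a))).card : ℝ) := by
      apply mul_le_mul_of_nonneg_right _ (Nat.cast_nonneg _)
      linarith
    exact h4.trans (h1.trans (mul_le_mul_of_nonneg_left h3 h2t.le))
  have hall : ∀ᶠ m : ℕ in atTop, ∀ σ ∈ (univ : Finset (Tau a → ZMod 2)), Odd (m + N) →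
      (1 - ε / 2 ^ t) * (((Sf k m).filter (nb (QQ a))).card : ℝ) ≤
        (2 : ℝ) ^ t * ((Cl H σ m).card : ℝ) := by
    rw [Filter.eventually_all_finset]
    intro σ _
    exact hlow σ
  filter_upwards [hall] with m hm ho
  rw [← ht]
  set T := (((Sf k m).filter (nb (QQ a))).card : ℝ) with hT
  have hT0 : 0 ≤ T := Nat.cast_nonneg _
  have e1 : ε / 2 ^ t ≤ ε := by
    apply div_le_self hε.le
    exact one_le_pow₀ (by norm_num)
  constructor
  · refine le_trans ?_ (hm σ (mem_univ σ) ho)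
    apply mul_le_mul_of_nonneg_right _ hT0
    linarith
  · have h1 : ∑ σ' ∈ univ.erase σ, (1 - ε / 2 ^ t) * T ≤
        ∑ σ' ∈ univ.erase σ, (2 : ℝ) ^ t * ((Cl H σ' m).card : ℝ) :=
      sum_le_sum fun σ' _ => hm σ' (mem_univ σ') ho
    have h2 : (2 : ℝ) ^ t * ((Cl H σ m).card : ℝ) +
        ∑ σ' ∈ univ.erase σ, (2 : ℝ) ^ t * ((Cl H σ' m).card : ℝ) = 2 ^ t * T := by
      rw [add_sum_erase univ (fun σ' => (2 : ℝ) ^ t * ((Cl H σ' m).card : ℝ)) (mem_univ σ),
        ← mul_sum, hT, ← Cl_sum H m]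
      push_cast
      rfl
    have h3 : ((univ.erase σ : Finset (Tau a → ZMod 2)).card : ℝ) = 2 ^ t - 1 := by
      rw [card_erase_of_mem (mem_univ σ), card_univ, Fintype.card_fun, ZMod.card, ← ht,
        Nat.cast_sub Nat.one_le_two_pow]
      push_cast
      rfl
    rw [sum_const, nsmul_eq_mul, h3] at h1
    have h4 : (2 ^ t - 1) * ((1 - ε / 2 ^ t) * T) = 2 ^ t * T - T - (ε - ε / 2 ^ t) * T := by
      have h5 : ε / 2 ^ t * 2 ^ t = ε := div_mul_cancel₀ _ h2t.ne'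
      linear_combination (-T) * h5
    have h6 : 0 ≤ ε / 2 ^ t * T := mul_nonneg hδ.le hT0
    nlinarith

include H in
/-- **the law in a class** -/
theorem cls_law (hi : IsSquare (-1 : k)) (hchar : ringChar k ≠ 2) (hq : 4 ≤ Fintype.card k)
    (K : Type) [Field K] [Algebra k[X] K] [IsFractionRing k[X] K]
    (σ : Tau a → ZMod 2) (𝒜 : Set ℕ) {ε : ℝ} (hε : 0 < ε) :
    ∀ᶠ m : ℕ in atTop, Odd (m + N) →
      ((∑' e : ℕ, if e ∈ 𝒜 then lawc ((Fintype.card (Tau a) : ZMod 2) + ∑ s, σ s) e else 0) - ε) *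
        ((Cl H σ m).card : ℝ) ≤
        (((Cl H σ m).filter fun D => ∃ e ∈ 𝒜, BoundedBy (cur K a D) k[X] (2 ^ e)).card : ℝ) := by
  obtain ⟨P, hP⟩ : ∃ P, P = ∑' e : ℕ, (if e ∈ 𝒜 then
    lawc ((Fintype.card (Tau a) : ZMod 2) + ∑ s, σ s) e else 0) := ⟨_, rfl⟩
  have hP1 : P ≤ 1 := by
    rw [hP, ← (hasSum_lawc ((Fintype.card (Tau a) : ZMod 2) + ∑ s, σ s)).tsum_eq]
    have hs := (hasSum_lawc ((Fintype.card (Tau a) : ZMod 2) + ∑ s, σ s)).summable
    refine Summable.tsum_le_tsum (fun e => ?_) (Summable.of_nonneg_of_le (fun e => ?_)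
      (fun e => ?_) hs) hs
    · split_ifs
      · exact le_rfl
      · exact lawc_nonneg _ _
    · split_ifs
      · exact lawc_nonneg _ _
      · exact le_rfl
    · split_ifs
      · exact le_rfl
      · exact lawc_nonneg _ _
  rw [← hP]
  by_cases hPe : P ≤ ε
  · refine Eventually.of_forall fun m _ => ?_
    refine (mul_nonpos_of_nonpos_of_nonneg (by linarith) (Nat.cast_nonneg _)).trans
      (Nat.cast_nonneg _)
  push Not at hPe
  obtain ⟨𝒮, h1, h2⟩ := probc_fin ((Fintype.card (Tau a) : ZMod 2) + ∑ s, σ s) 𝒜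
    (show 0 < ε / 4 by linarith)
  rw [← hP] at h2
  filter_upwards [one_fin H hi hchar hq K σ 𝒮 (show 0 < ε / 4 by linarith),
    cls_size H hi hchar hq σ (show 0 < ε / 2 by linarith)] with m hm hm2 ho
  have h3 := hm ho
  obtain ⟨-, h4⟩ := hm2 ho
  set T := (((Sf k m).filter (nb (QQ a))).card : ℝ) with hT
  have hT0 : 0 ≤ T := Nat.cast_nonneg _
  have h5 : (((Cl H σ m).filter fun D => ∃ e ∈ 𝒮, BoundedBy (cur K a D) k[X] (2 ^ e)).card : ℝ) ≤
      (((Cl H σ m).filter fun D => ∃ e ∈ 𝒜, BoundedBy (cur K a D) k[X] (2 ^ e)).card : ℝ) := by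
    have : ((Cl H σ m).filter fun D => ∃ e ∈ 𝒮, BoundedBy (cur K a D) k[X] (2 ^ e)) ⊆
        ((Cl H σ m).filter fun D => ∃ e ∈ 𝒜, BoundedBy (cur K a D) k[X] (2 ^ e)) := by
      intro D hD
      obtain ⟨g1, e, he, g2⟩ := mem_filter.1 hD
      exact mem_filter.2 ⟨g1, e, h1 e he, g2⟩
    exact_mod_cast card_le_card this
  have h2t : (0 : ℝ) < 2 ^ Fintype.card (Tau a) := by positivity
  have h6 : (P - ε) * ((2 : ℝ) ^ Fintype.card (Tau a) * ((Cl H σ m).card : ℝ)) ≤
      (P - ε / 2) * T := by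
    calc (P - ε) * ((2 : ℝ) ^ Fintype.card (Tau a) * ((Cl H σ m).card : ℝ)) ≤
        (P - ε) * ((1 + ε / 2) * T) := mul_le_mul_of_nonneg_left h4 (by linarith)
      _ = ((P - ε) * (1 + ε / 2)) * T := by ring
      _ ≤ (P - ε / 2) * T := by
          apply mul_le_mul_of_nonneg_right _ hT0
          nlinarith
  have h7 : (P - ε / 2) * T ≤ (2 : ℝ) ^ Fintype.card (Tau a) *
      (((Cl H σ m).filter fun D => ∃ e ∈ 𝒜, BoundedBy (cur K a D) k[X] (2 ^ e)).card : ℝ) := by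
    refine le_trans ?_ (h3.trans (mul_le_mul_of_nonneg_left h5 h2t.le))
    apply mul_le_mul_of_nonneg_right _ hT0
    linarith
  have h8 := h6.trans h7
  have h9 : (2 : ℝ) ^ Fintype.card (Tau a) * ((P - ε) * ((Cl H σ m).card : ℝ)) ≤
      (2 : ℝ) ^ Fintype.card (Tau a) *
      (((Cl H σ m).filter fun D => ∃ e ∈ 𝒜, BoundedBy (cur K a D) k[X] (2 ^ e)).card : ℝ) := by
    linarith
  exact le_of_mul_le_mul_left h9 h2t

end one

end Pool.Agent.Q269.SL
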