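import Pool.Agent.Q269.SL.Selb
import Pool.Agent.Y164.HG.Cla

/-!
# The bound for the rational points and the Tate-Shafarevich group by the order of the kernel
-/

set_option autoImplicit false
set_option linter.all false

open Polynomial IsDedekindDomain
open scoped Classical

namespace Pool.Agent.Q269.SL

open Finset
open Pool.Agent.Y164.HG
open Pool.Agent.Y713.SE (tDat cl)
open Pool.Agent.Y713.SE.Dat (au)
open Pool.Agent.Y713.Jac (J Cochain IsCocycle IsLocallyTrivial IsCoboundary mapJ)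
open Pool.Agent.Y164.PS (Fam)

/-- the number of the points modulo torsion points and squares times the number of the classes of
order two is at most `M` -/
def BoundedBy {K : Type} [Field K] (F : K[X]) (R : Type) [CommRing R] [IsDedekindDomain R]
    [Algebra R K] [IsFractionRing R K] (M : ℕ) : Prop :=
  ∀ (A B : ℕ) (x : Fin A → J 2 F K) (c : Fin B → Cochain 2 F),
    (∀ i j, i ≠ j → ¬ ∃ T y : J 2 F K, T ^ 2 = 1 ∧ x i = x j * T * y ^ 2) →
    (∀ j, IsCocycle 2 F (c j)) → (∀ j, IsLocallyTrivial 2 F R (c j)) →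
    (∀ j, IsCoboundary 2 F (fun σ => c j σ ^ 2)) →
    (∀ i j, i ≠ j → ¬ IsCoboundary 2 F (fun σ => c i σ / c j σ)) → A * B ≤ M

theorem BoundedBy.mono {K : Type} [Field K] {F : K[X]} {R : Type} [CommRing R]
    [IsDedekindDomain R] [Algebra R K] [IsFractionRing R K] {M M' : ℕ} (h : BoundedBy F R M)
    (hM : M ≤ M') : BoundedBy F R M' :=
  fun A B x c h1 h2 h3 h4 h5 => (h A B x c h1 h2 h3 h4 h5).trans hM

section transport
variable {n : ℕ} {K : Type} [Field K] (D : Pool.Agent.Y713.SE.Dat 2 n K)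

/-- transport -/
theorem bounded_of (hEXT : S_EXT) (hINJ : S_INJ) {R : Type} [CommRing R] [IsDedekindDomain R]
    [Algebra R K] [IsFractionRing R K] {p : ℕ} [ExpChar (SeparableClosure K) p] {M : ℕ}
    (pig : ∀ (I : Type) [Fintype I] (χ : I → (Pool.Agent.Y713.Jac.Gal K) → Fin n → ℕ),
      (∀ i, D.Coc (fun σ => cl ((D.base (SeparableClosure K)).PT (χ i σ)))) →
      (∀ i, ∀ v : HeightOneSpectrum R, D.Triv (v.adicCompletion K)
        (SeparableClosure (v.adicCompletion K))
        (fun σ => cl ((D.base (SeparableClosure K)).PT (χ i σ)))) → M < Fintype.card I →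
      ∃ i j, i ≠ j ∧ ∃ (m : Fin n → ℕ) (Q : ClassGroup (D.base (SeparableClosure K)).A),
        cl ((D.base (SeparableClosure K)).PT m) * (D.base (SeparableClosure K)).sC Q = Q ∧
        ∀ σ, cl ((D.base (SeparableClosure K)).PT (χ i σ)) *
          cl ((D.base (SeparableClosure K)).PT (χ j σ)) = D.mC (au σ) Q / Q) :
    BoundedBy D.f R M := by
  intro A B x c hx hc1 hc2 hc3 hc4
  have h := sel_bound D hEXT hINJ (E := SeparableClosure K) (p := p)
    (LT := fun c => ∀ v : HeightOneSpectrum R, D.Triv (v.adicCompletion K)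
      (SeparableClosure (v.adicCompletion K)) c)
    (fun c Q h v => (h v).div D Q) pig (A := Fin A) (B := Fin B)
    (fun i => (D.Te K).symm (x i)) ?_
    (fun j σ => (D.Te (SeparableClosure K)).symm (c j σ)) ?_ ?_ ?_ ?_
  · rwa [Fintype.card_fin, Fintype.card_fin] at h
  · rintro i j hij ⟨m, y, hy⟩
    apply hx i j hij
    refine ⟨D.Te K (cl ((D.base K).PT m)), D.Te K y, ?_, ?_⟩
    · rw [← map_pow, PT_sq, map_one]
    · have h1 := congrArg (D.Te K) hy
      rw [MulEquiv.apply_symm_apply, map_mul, map_mul, map_pow, MulEquiv.apply_symm_apply] at h1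
      exact h1
  · intro j
    refine ⟨(hc1 j).1.comp _, fun σ τ => ?_⟩
    show (D.Te (SeparableClosure K)).symm (c j (σ * τ)) = _
    rw [(hc1 j).2, map_mul, D.Te_symm_nat]
  · intro j v
    obtain ⟨ι, P, h⟩ := hc2 j v
    refine ⟨ι, (D.Te _).symm P, fun τ σ hτσ => ?_⟩
    have h1 := congrArg (D.Te _).symm (h τ σ hτσ)
    rw [D.Te_symm_nat, _root_.map_div, D.Te_symm_nat] at h1
    exact h1
  · intro j
    obtain ⟨Q, hQ⟩ := hc3 j
    refine ⟨(D.Te _).symm Q, fun σ => ?_⟩
    have h1 := congrArg (D.Te _).symm (hQ σ)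
    rw [map_pow, _root_.map_div, D.Te_symm_nat] at h1
    exact h1
  · rintro i j hij ⟨Q, hQ⟩
    apply hc4 i j hij
    refine ⟨D.Te _ Q, fun σ => ?_⟩
    apply (D.Te _).symm.injective
    rw [_root_.map_div, _root_.map_div, D.Te_symm_nat, MulEquiv.symm_apply_apply]
    exact hQ σ

end transport

section
variable {k K : Type} [Field k] [Fintype k] [DecidableEq k] [Field K] [Algebra k[X] K]
  [IsFractionRing k[X] K]
variable {n : ℕ} {a : Fin n → k[X]} {N : ℕ} (H : Geo a N)

include H in
theorem imp_bound [Fact (Odd n)] (σ : Tau a → F2) (ι : Type) [Fintype ι] (T : ι → k[X])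
    (hR : Fam (Sum.elim T (QQ a))) (hcl : Pool.Agent.Y164.HG.cl (H.dat σ) (QQ a) T)
    (hpar : ∑ i, ((T i).natDegree : F2) + (H.dat σ).N = 1) :
    BoundedBy (cur K a (∏ i, T i)) k[X]
      (kc (H.dat σ) (AT T) (BT (QQ a) T) (fun i => ((T i).natDegree : F2))) := by
  have hinj : Function.Injective (algebraMap k[X] K) := IsFractionRing.injective k[X] K
  have h2 : ((2 : ℕ) : k) ≠ 0 := by
    have := Ring.two_ne_zero H.hk
    exact_mod_cast this
  have hζ : IsPrimitiveRoot (-1 : k) 2 := by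
    refine IsPrimitiveRoot.mk_of_lt _ (by norm_num) (by norm_num) ?_
    intro l hl1 hl2
    have : l = 1 := by omega
    rw [this, pow_one]
    intro h
    apply Ring.two_ne_zero H.hk
    have h3 : (2 : k) = 1 + 1 := by norm_num
    rw [h3]
    nth_rewrite 1 [← h]
    ring
  have hT0 : (∏ i, T i) ≠ 0 := prod_ne_zero_iff.2 fun i _ => (hR.irr (Sum.inl i)).ne_zero
  have hδ : algebraMap k[X] K (∏ i, T i) ≠ 0 := (map_ne_zero_iff _ hinj).2 hT0
  have he : Function.Injective (fun i => algebraMap k[X] K (a i)) := by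
    intro i j hij
    by_contra hne
    exact H.ne hne (sub_eq_zero.2 (hinj hij))
  have hn : ¬ 2 ∣ n := by
    rw [← even_iff_two_dvd, Nat.not_even_iff_odd]
    exact H.hn
  obtain ⟨D0, hD⟩ : ∃ D0 : Pool.Agent.Y713.SE.Dat 2 n K,
      D0 = tDat K Nat.prime_two h2 hζ hδ he hn := ⟨_, rfl⟩
  have hDδ : D0.δ = algebraMap k[X] K (∏ i, T i) := by rw [hD]; rfl
  have hDe : ∀ i, D0.e i = algebraMap k[X] K (a i) := fun i => by rw [hD]; rfl
  have hf : D0.f = cur K a (∏ i, T i) := by
    rw [Pool.Agent.Y713.SE.Dat.f, hDδ, cur]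
    simp only [hDe]
  obtain ⟨p, hexp⟩ := ExpChar.exists K
  haveI := hexp
  haveI : ExpChar (SeparableClosure K) p :=
    expChar_of_injective_algebraMap (algebraMap K (SeparableClosure K)).injective p
  haveI : ∀ v : HeightOneSpectrum k[X], ExpChar (SeparableClosure (v.adicCompletion K)) p := fun v =>
    expChar_of_injective_algebraMap
      (algebraMap K (SeparableClosure (v.adicCompletion K))).injective p
  rw [← hf]
  apply bounded_of D0 Pool.Agent.Y500.HG.t Pool.Agent.Y288.HG.Inj.t (p := p)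
  intro I _ χ hc ht hM
  exact crit_pig (K := K) H Pool.Agent.Y288.HG.Rep.t Pool.Agent.Y31.HG.Adj.t hR D0 hDδ hDe σ hcl
    hpar (E := SeparableClosure K) (p := p)
    (fun v : HeightOneSpectrum k[X] => SeparableClosure (v.adicCompletion K)) χ hc ht hM

end

end Pool.Agent.Q269.SL
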