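import Pool.Agent.Q269.SL.Pa
import Pool.Agent.Q269.SL.Bnd
import Pool.Agent.Q269.MF.Two

/-!
# The joint law for several families of hyperelliptic curves
-/

set_option autoImplicit false
set_option linter.all false

namespace Pool.Agent.Q269.SL

open Finset Polynomial Filter Topology
open Pool.Agent.Q269.MF
open Pool.Agent.Y164.SZ (L AT BT ok SYM0 SYM FDat Triv kLI AS nb KerP)
open Pool.Agent.Y164.HG (Geo Tau QQ EW cur F2 kc)
open Pool.Agent.Y164.PS (Sf mem_Sf Fam)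
open Pool.Agent.Y261.SZ (nb_lower)
open scoped Classical

/-- some vector of `𝒜` is a vector of bounds -/
def GoodX {k : Type} [Field k] (K : Type) [Field K] [Algebra k[X] K]
    [IsFractionRing k[X] K] {R : Type} {n : R → ℕ} (a : (r : R) → Fin (n r) → k[X])
    (𝒜 : Finset (R → ℕ)) (E : k[X]) : Prop :=
  ∃ e ∈ 𝒜, ∀ r, BoundedBy (cur K (a r) E) k[X] (2 ^ e r)

section two
variable {k : Type} [Field k] [Fintype k] [DecidableEq k]
variable {R : Type} [Fintype R] [DecidableEq R] {n : R → ℕ} [∀ r, Fact (Odd (n r))]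
  {a : (r : R) → Fin (n r) → k[X]} {N : R → ℕ} (H : ∀ r, Geo (a r) (N r))

theorem datT_sanN {K K' : ℕ} {l u : ℕ → ℝ}
    (hlu : ∀ s : ℕ, Even s → evc 2 (K + 1) l s ≤ (if s = 0 then (1 : ℝ) else 0) ∧
      (if s = 0 then (1 : ℝ) else 0) ≤ evc 2 (K + 1) u s) (e : R → ℕ)
    (h : ∀ r, K + 1 + e r ≤ K') (σ : (Σ r, Tau (a r)) → ZMod 2) (r : R) :
    SanN (e r) (cf2 K (e r) l (parx e σ r)) (cf2 K (e r) u (parx e σ r)) K' (datT H σ r) :=
  sanN_cls hlu (h r) _ _ Iff.rfl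

theorem cell_x {K : ℕ} {l u : ℕ → ℝ}
    (hl : ∑ j ∈ range (K + 1 + 1), l j * aj j = gK K)
    (hu : ∑ j ∈ range (K + 1 + 1), u j * aj j = gK (K + 1))
    (hlu : ∀ s : ℕ, Even s → evc 2 (K + 1) l s ≤ (if s = 0 then (1 : ℝ) else 0) ∧
      (if s = 0 then (1 : ℝ) else 0) ≤ evc 2 (K + 1) u s)
    (σ : (Σ r, Tau (a r)) → ZMod 2) (𝒜 : Finset (R → ℕ)) {δ : ℝ} (hδ : 0 < δ) :
    CellA (Q2 a) σ (gM (datT H 0)) (fun x => ∀ r, IsUnit (x + (N r : ZMod 2)))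
        (PUx (datT H σ) (Q2 a) 𝒜) (∑ e ∈ 𝒜, cX K e (parx e σ) - δ) := by
  obtain ⟨M, hM⟩ : ∃ M : ℕ, ∀ e ∈ 𝒜, ∀ r, e r ≤ M := by
    refine ⟨∑ e ∈ 𝒜, ∑ r, e r, fun e he r => ?_⟩
    exact (single_le_sum (f := fun r => e r) (fun _ _ => Nat.zero_le _) (mem_univ r)).trans
      (single_le_sum (f := fun e : R → ℕ => ∑ r, e r) (fun _ _ => Nat.zero_le _) he)
  have hK' : ∀ e ∈ 𝒜, ∀ r, K + 1 + e r ≤ K + 1 + M := fun e he r => by
    have := hM e he r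
    omega
  have h3 := cell_nu (datT H σ) (Q := Q2 a) (K := K + 1 + M)
      (l := fun e r => cf2 K (e r) l (parx e σ r))
      (u := fun e r => cf2 K (e r) u (parx e σ r)) (fun r =>
        card_ge_two (tF_CN ((H r).conn (fun s => σ ⟨r, s⟩)))) (fun r => 
          tF_CN ((H r).conn (fun s => σ ⟨r, s⟩)))
      (fun hS0 ι _ d _ r T w hw => by
        apply tF_diag _ _ _ _ _ hw
        intro i j
        exact hS0.L_comm _ _) 𝒜 (fun e he r => datT_sanN H hlu e (hK' e he) σ r) hδ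
  have h4 : ∑ e ∈ 𝒜, cUL 2 (K + 1 + M) (fun r => cf2 K (e r) l (parx e σ r))
      (fun r => cf2 K (e r) u (parx e σ r)) = ∑ e ∈ 𝒜, cX K e (parx e σ) :=
    sum_congr rfl fun e he => cUL_x e (hK' e he) hl hu _
  rw [h4, datT_sp, datT_g] at h3
  simp only [datT_N] at h3
  exact h3

theorem imp_x (hchar : ringChar k ≠ 2) (K : Type) [Field K] [Algebra k[X] K]
    [IsFractionRing k[X] K] (𝒜 : Finset (R → ℕ))
    (σ : (Σ r, Tau (a r)) → ZMod 2) : ImpA (Q2 a) σ (gM (datT H 0))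
      (fun x => ∀ r, IsUnit (x + (N r : ZMod 2)))
      (PUx (datT H σ) (Q2 a) 𝒜) (GoodX K a 𝒜) := by
  intro ι _ T hR hcl hU hP
  obtain ⟨e, he, hPe⟩ := hP
  refine ⟨e, he, fun r => ?_⟩
  have h1 : Nat.card (KerP (datT H σ r) (AT 2 T) (BT 2 (Qr (Q2 a) r) T)
    (fun i => ((T i).natDegree : ZMod 2))) = 2 ^ e r := hPe r
  have h4 : (AT 2 T) = Pool.Agent.Y164.HG.AT T := by
    funext i j
    exact L_eq hchar _ _
  have h5 : BT 2 (Qr (Q2 a) r) T = Pool.Agent.Y164.HG.BT (QQ (a r)) T := by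
    funext i s
    exact L_eq hchar _ _
  have h2 : Nat.card (KerP (datT H σ r) (AT 2 T) (BT 2 (Qr (Q2 a) r) T)
      (fun i => ((T i).natDegree : ZMod 2))) =
      kc ((H r).dat fun s => σ ⟨r, s⟩) (AT 2 T) (BT 2 (Qr (Q2 a) r) T)
      (fun i => ((T i).natDegree : ZMod 2)) := ker_kc _ _ _ _
  rw [h2, h4, h5] at h1
  rw [← h1]
  refine imp_bound (H r) (fun s => σ ⟨r, s⟩) ι T (Fam_res hR r) (fun s => ?_) (isUnit_two (hU r))
  have h3 := hcl ⟨r, s⟩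
  have h6 : ∀ i, BT 2 (Q2 a) T i ⟨r, s⟩ = Pool.Agent.Y164.HG.BT (QQ (a r)) T i s :=
    fun i => L_eq hchar _ _
  simp only [h6] at h3
  exact h3

end two

/-- the final form for the prime two -/
theorem final_x {k : Type} [Field k] [Finite k]
    (h2 : (2 : k) ≠ 0) (hi : IsSquare (-1 : k))
    (K : Type) [Field K] [Algebra k[X] K] [IsFractionRing k[X] K] {R : Type} [Fintype R]
    {n : R → ℕ} (hn : ∀ r, Odd (n r)) (hn3 : ∀ r, 3 ≤ n r) (N : R → ℕ) (hN : ∀ r, 1 ≤ N r)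
    (a : (r : R) → Fin (n r) → k[X])
    (hdeg : ∀ r i j, i ≠ j → (a r i - a r j).natDegree = N r)
    (hsq : ∀ r, Squarefree (Pool.Agent.Y164.HG.Del (a r)))
    (hcop : ∀ r r', r ≠ r' → IsCoprime (Pool.Agent.Y164.HG.Del (a r))
      (Pool.Agent.Y164.HG.Del (a r'))) :
    (∃ c : ℝ, 0 < c ∧ ∀ᶠ m : ℕ in atTop, c * (Nat.card k : ℝ) ^ m ≤ ((twm a m).ncard : ℝ)) ∧
    ∀ 𝒜 : Finset (R → ℕ), ∀ ε : ℝ, 0 < ε → ∀ᶠ m : ℕ in atTop, (∀ r, Odd (m + N r)) →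
      (∑ e ∈ 𝒜, ∏ r, law2 (e r) - ε) * ((twm a m).ncard : ℝ) ≤
        (({E ∈ twm a m | GoodX K a 𝒜 E}).ncard : ℝ) := by
  haveI : ∀ r, Fact (Odd (n r)) := fun r => ⟨hn r⟩
  letI : Fintype k := Fintype.ofFinite k
  have hchar : ringChar k ≠ 2 := by
    intro h
    apply h2
    have := ringChar.Nat.cast_ringChar (R := k)
    rw [h] at this
    exact_mod_cast this
  have hcard : Nat.card k = Fintype.card k := Nat.card_eq_fintype_card
  have hq := Pool.Agent.Y164.HG.four_le h2 hi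
  have S' : SYM 2 k := sym hchar hi
  have H : ∀ r, Geo (a r) (N r) := fun r =>
    ⟨hchar, hi, hn r, hn3 r, hN r, hdeg r, hsq r⟩
  have hF : Fam (Q2 a) := Q2_fam H hcop
  have hcN : (Nat.card k : ℝ) = (Fintype.card k : ℝ) := by rw [hcard]
  have e1 : ∀ m, (twm a m).ncard = ((Sf k m).filter (nb (Q2 a))).card := by
    intro m
    rw [← Set.ncard_coe_finset]
    congr 1
    ext E
    rw [Finset.mem_coe, mem_filter, mem_Sf]
    show (_ ∧ _ ∧ _ ∧ _) ↔ _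
    constructor
    · rintro ⟨a1, a2, a3, a4⟩
      exact ⟨⟨a1, a2, a3⟩, (nb2_iff H a1).2 a4⟩
    · rintro ⟨⟨a1, a2, a3⟩, a4⟩
      exact ⟨a1, a2, a3, (nb2_iff H a1).1 a4⟩
  constructor
  · obtain ⟨c, hc, h⟩ := nb_lower hF hchar hq
    refine ⟨c, hc, ?_⟩
    filter_upwards [h] with m hm
    rw [e1, hcN]
    exact hm
  intro 𝒜 ε hε
  have e2 : ∀ m, ((Sf k m).filter (fun E => nb (Q2 a) E ∧ GoodX K a 𝒜 E)).card ≤
      ({E ∈ twm a m | GoodX K a 𝒜 E}).ncard := by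
    intro m
    rw [← Set.ncard_coe_finset]
    apply Set.ncard_le_ncard
    · intro E hE
      rw [Finset.mem_coe, mem_filter, mem_Sf] at hE
      obtain ⟨⟨a1, a2, a3⟩, a4, a5⟩ := hE
      exact ⟨⟨a1, a2, a3, (nb2_iff H a1).1 a4⟩, a5⟩
    · apply Set.Finite.subset (Finset.finite_toSet (Sf k m))
      rintro E ⟨⟨a1, a2, a3, -⟩, -⟩
      exact mem_Sf.2 ⟨a1, a2, a3⟩
  haveI hne : ∀ r, Nonempty (Tau (a r)) := fun r => ((H r).conn (fun _ => 0)).nonempty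
  obtain ⟨Kk, hKo, hK⟩ := avx_ex (τ := fun r => Tau (a r)) 𝒜 (half_pos hε)
  obtain ⟨l, u, hl, hu, hlu⟩ := two_coef hKo
  have hcell : ∀ σ : (Σ r, Tau (a r)) → ZMod 2, ∀ δ : ℝ, 0 < δ →
      CellA (Q2 a) σ (gM (datT H 0)) (fun x => ∀ r, IsUnit (x + (N r : ZMod 2)))
        (PUx (datT H σ) (Q2 a) 𝒜) (∑ e ∈ 𝒜, cX Kk e (parx e σ) - δ) :=
    fun σ δ hδ => cell_x H hl hu hlu σ 𝒜 hδ
  have himp : ∀ σ : (Σ r, Tau (a r)) → ZMod 2, ImpA (Q2 a) σ (gM (datT H 0))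
      (fun x => ∀ r, IsUnit (x + (N r : ZMod 2)))
      (PUx (datT H σ) (Q2 a) 𝒜) (GoodX K a 𝒜) := fun σ => imp_x H hchar K 𝒜 σ
  have hmain := main_s S' hF hchar hq (U := fun x => ∀ r, IsUnit (x + (N r : ZMod 2)))
    (PP := fun σ => PUx (datT H σ) (Q2 a) 𝒜) himp
    (fun σ => ∑ e ∈ 𝒜, cX Kk e (parx e σ)) hcell (half_pos hε)
  obtain ⟨X, hX⟩ : ∃ X, X = avS (fun σ : (Σ r, Tau (a r)) → ZMod 2 =>
    ∑ e ∈ 𝒜, cX Kk e (parx e σ)) := ⟨_, rfl⟩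
  rw [← hX] at hmain hK
  filter_upwards [hmain] with m hm ho
  have h3 : ∀ r, IsUnit ((m : ZMod 2) + (N r : ZMod 2)) := by
    intro r
    have h4 : ((m + N r : ℕ) : ZMod 2) = 1 := (ZMod.natCast_eq_one_iff_odd).2 (ho r)
    have h5 : (m : ZMod 2) + (N r : ZMod 2) = 1 := by
      rw [← h4]
      push_cast
      rfl
    rw [h5]
    exact isUnit_one
  have h4 := (hm h3).trans (show _ ≤ (({E ∈ twm a m | GoodX K a 𝒜 E}).ncard : ℝ) by
    exact_mod_cast e2 m)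
  rw [e1]
  refine le_trans ?_ h4
  apply mul_le_mul_of_nonneg_right _ (Nat.cast_nonneg _)
  linarith

end Pool.Agent.Q269.SL
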