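import Pool.Agent.Q269.SL.Eul
import Pool.Agent.Q269.SL.Fn2

/-!
# All sets of vectors
-/

set_option autoImplicit false
set_option linter.all false

namespace Pool.Agent.Q269.SL

open Finset Polynomial Filter Topology
open Pool.Agent.Q269.MF
open Pool.Agent.Y164.HG (cur)
open scoped Classical

theorem law2_nonneg (e : ℕ) : 0 ≤ law2 e := by
  rw [law2, lam2_eq]
  have h1 : 0 ≤ bet := by
    apply ge_of_tendsto bet_tendsto
    refine Eventually.of_forall fun n => prod_nonneg fun i _ => ?_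
    have : (1 / 2 : ℝ) ^ (2 * i + 1) ≤ 1 := pow_le_one₀ (by norm_num) (by norm_num)
    linarith
  have h2 := (ce_pos e).le
  positivity

section
variable {R : Type} [Fintype R]

theorem pi_nonneg (e : R → ℕ) : 0 ≤ ∏ r, law2 (e r) := prod_nonneg fun r _ => law2_nonneg _

theorem sum_box (M : ℕ) : ∑ e ∈ Fintype.piFinset (fun _ : R => range M), ∏ r, law2 (e r) =
    (∑ j ∈ range M, law2 j) ^ Fintype.card R := by
  rw [← prod_univ_sum (fun _ : R => range M) (fun _ j => law2 j), prod_const, card_univ]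

theorem sum_le_box (S : Finset (R → ℕ)) : ∃ M, S ⊆ Fintype.piFinset (fun _ : R => range M) := by
  refine ⟨∑ e ∈ S, ∑ r, (e r + 1), fun e he => ?_⟩
  rw [Fintype.mem_piFinset]
  intro r
  rw [mem_range]
  have h1 := single_le_sum (f := fun e : R → ℕ => ∑ r, (e r + 1)) (fun _ _ => Nat.zero_le _) he
  have h2 := single_le_sum (f := fun r => e r + 1) (fun _ _ => Nat.zero_le _) (mem_univ r)
  have h3 : e r + 1 ≤ ∑ r, (e r + 1) := h2
  exact lt_of_lt_of_le (Nat.lt_succ_self _) (h3.trans h1)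

theorem hasSum_pi : HasSum (fun e : R → ℕ => ∏ r, law2 (e r)) 1 := by
  have hs : Summable (fun e : R → ℕ => ∏ r, law2 (e r)) := by
    refine summable_of_sum_le (c := 1) pi_nonneg fun S => ?_
    obtain ⟨M, hM⟩ := sum_le_box S
    refine (sum_le_sum_of_subset_of_nonneg hM fun _ _ _ => pi_nonneg _).trans ?_
    rw [sum_box]
    apply pow_le_one₀ (sum_nonneg fun _ _ => law2_nonneg _)
    exact sum_le_hasSum _ (fun _ _ => law2_nonneg _) hasSum_law
  have h1 : Tendsto (fun M : ℕ => ∑ e ∈ Fintype.piFinset (fun _ : R => range M),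
      ∏ r, law2 (e r)) atTop (𝓝 (∑' e : R → ℕ, ∏ r, law2 (e r))) := by
    refine hs.hasSum.comp ?_
    apply tendsto_atTop_finset_of_monotone
    · intro M M' h
      exact Fintype.piFinset_subset _ _ fun _ => range_mono h
    · intro e
      obtain ⟨M, hM⟩ := sum_le_box {e}
      exact ⟨M, hM (mem_singleton_self e)⟩
  have h2 : Tendsto (fun M : ℕ => ∑ e ∈ Fintype.piFinset (fun _ : R => range M),
      ∏ r, law2 (e r)) atTop (𝓝 (1 ^ Fintype.card R)) := by
    simp only [sum_box]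
    exact hasSum_law.tendsto_sum_nat.pow _
  rw [one_pow] at h2
  have h3 := tendsto_nhds_unique h1 h2
  rw [← h3]
  exact hs.hasSum

/-- the probability of a set of vectors -/
theorem prob_fin (𝒜 : Set (R → ℕ)) {ε : ℝ} (hε : 0 < ε) : ∃ 𝒮 : Finset (R → ℕ), (∀ e ∈ 𝒮, e ∈ 𝒜) ∧
    (∑' e : R → ℕ, if e ∈ 𝒜 then ∏ r, law2 (e r) else 0) - ε ≤ ∑ e ∈ 𝒮, ∏ r, law2 (e r) := by
  have hs : Summable (fun e : R → ℕ => if e ∈ 𝒜 then ∏ r, law2 (e r) else 0) := by
    refine Summable.of_nonneg_of_le (fun e => ?_) (fun e => ?_) (hasSum_pi (R := R)).summable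
    · split_ifs
      · exact pi_nonneg e
      · exact le_rfl
    · split_ifs
      · exact le_rfl
      · exact pi_nonneg e
  obtain ⟨S, hS⟩ := ((hs.hasSum.eventually_const_lt
    (show (∑' e : R → ℕ, if e ∈ 𝒜 then ∏ r, law2 (e r) else 0) - ε < _ by linarith))).exists
  refine ⟨S.filter (· ∈ 𝒜), fun e he => (mem_filter.1 he).2, ?_⟩
  rw [sum_filter]
  exact hS.le

end

/-- the final form for all sets of vectors -/
theorem final_all {k : Type} [Field k] [Finite k]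
    (h2 : (2 : k) ≠ 0) (hi : IsSquare (-1 : k))
    (K : Type) [Field K] [Algebra k[X] K] [IsFractionRing k[X] K] {R : Type} [Fintype R]
    {n : R → ℕ} (hn : ∀ r, Odd (n r)) (hn3 : ∀ r, 3 ≤ n r) (N : R → ℕ) (hN : ∀ r, 1 ≤ N r)
    (a : (r : R) → Fin (n r) → k[X])
    (hdeg : ∀ r i j, i ≠ j → (a r i - a r j).natDegree = N r)
    (hsq : ∀ r, Squarefree (Pool.Agent.Y164.HG.Del (a r)))
    (hcop : ∀ r r', r ≠ r' → IsCoprime (Pool.Agent.Y164.HG.Del (a r))
      (Pool.Agent.Y164.HG.Del (a r'))) :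
    (∃ c : ℝ, 0 < c ∧ ∀ᶠ m : ℕ in atTop, c * (Nat.card k : ℝ) ^ m ≤ ((twm a m).ncard : ℝ)) ∧
    ∀ 𝒜 : Set (R → ℕ), ∀ ε : ℝ, 0 < ε → ∀ᶠ m : ℕ in atTop, (∀ r, Odd (m + N r)) →
      ((∑' e : R → ℕ, if e ∈ 𝒜 then ∏ r, law2 (e r) else 0) - ε) * ((twm a m).ncard : ℝ) ≤
        (({E ∈ twm a m | ∃ e ∈ 𝒜, ∀ r,
          BoundedBy (cur K (a r) E) k[X] (2 ^ e r)}).ncard : ℝ) := by
  obtain ⟨h1, h3⟩ := final_x h2 hi K hn hn3 N hN a hdeg hsq hcop
  refine ⟨h1, fun 𝒜 ε hε => ?_⟩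
  obtain ⟨S, hS, hS2⟩ := prob_fin 𝒜 (half_pos hε)
  filter_upwards [h3 S (ε / 2) (half_pos hε)] with m hm ho
  have h4 := hm ho
  have h5 : (({E ∈ twm a m | GoodX K a S E}).ncard : ℝ) ≤
      (({E ∈ twm a m | ∃ e ∈ 𝒜, ∀ r, BoundedBy (cur K (a r) E) k[X] (2 ^ e r)}).ncard : ℝ) := by
    have h6 : (twm a m).Finite := by
      letI : Fintype k := Fintype.ofFinite k
      apply Set.Finite.subset (Finset.finite_toSet (Pool.Agent.Y164.PS.Sf k m))
      rintro E ⟨a1, a2, a3, -⟩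
      exact Pool.Agent.Y164.PS.mem_Sf.2 ⟨a1, a2, a3⟩
    have h7 : ({E ∈ twm a m | GoodX K a S E}).ncard ≤
        ({E ∈ twm a m | ∃ e ∈ 𝒜, ∀ r, BoundedBy (cur K (a r) E) k[X] (2 ^ e r)}).ncard := by
      apply Set.ncard_le_ncard
      · rintro E ⟨hE, e, he, hr⟩
        exact ⟨hE, e, hS e he, hr⟩
      · exact h6.subset fun E hE => hE.1
    exact_mod_cast h7
  refine le_trans ?_ (h4.trans h5)
  apply mul_le_mul_of_nonneg_right _ (Nat.cast_nonneg _)
  linarith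

end Pool.Agent.Q269.SL
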