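import Pool.Agent.Q269.SL.Spl

/-!
# The law of the bounds and the reduction at the bad places
-/

set_option autoImplicit false
set_option linter.all false

namespace Pool.Agent.Q269.SL

open Finset Polynomial Filter Topology
open Pool.Agent.Q269.MF
open Pool.Agent.Y164.HG (Geo Tau QQ EW cur F2 kc Del nb_iff)
open Pool.Agent.Y164.PS (Sf mem_Sf Fam)
open Pool.Agent.Y164.SZ (nb)
open Pool.Agent.Y261.SZ (nb_lower)
open scoped Classical

section defs
variable {k : Type} [Field k]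

/-- the bad places -/
def BadP (a : Fin 3 → k[X]) : Set k[X] := {Q | Q.Monic ∧ Irreducible Q ∧ Q ∣ Del a}

/-- split multiplicative reduction -/
def SplitP (a : Fin 3 → k[X]) (D Q : k[X]) : Prop :=
  ∃ i j l : Fin 3, i ≠ j ∧ l ≠ i ∧ l ≠ j ∧ Q ∣ a i - a j ∧
    ∃ h : k[X], Q ∣ h ^ 2 - D * (a i - a l)

/-- the twists -/
def Tw3 (a : Fin 3 → k[X]) (m : ℕ) : Set k[X] :=
  {D | D.Monic ∧ D.natDegree = m ∧ Squarefree D ∧ ∀ i j, i ≠ j → IsCoprime D (a i - a j)}

/-- the twists with given set of split places -/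
def ClS (a : Fin 3 → k[X]) (S : Set k[X]) (m : ℕ) : Set k[X] :=
  {D ∈ Tw3 a m | {Q ∈ BadP a | SplitP a D Q} = S}

end defs

section
variable {k : Type} [Field k] [Fintype k] [DecidableEq k] {a : Fin 3 → k[X]} {N : ℕ}
  (H : Geo a N)

/-- the class attached to a set of places -/
noncomputable def sgS (a : Fin 3 → k[X]) (S : Set k[X]) (s : Tau a) : ZMod 2 :=
  if QQ a s ∈ S then 0 else 1

include H in
theorem badP_eq : BadP a = Set.range (QQ a) := by
  ext Q
  constructor
  · intro hQ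
    exact ⟨⟨Q, H.mem.2 hQ⟩, rfl⟩
  · rintro ⟨s, rfl⟩
    exact H.mem.1 s.2

include H in
theorem badP_fin : (BadP a).Finite := by
  rw [badP_eq H]
  exact Set.finite_range _

include H in
theorem badP_card : (BadP a).ncard = Fintype.card (Tau a) := by
  rw [badP_eq H, ← Set.image_univ, Set.ncard_image_of_injective _ H.fam.inj, Set.ncard_univ,
    Nat.card_eq_fintype_card]

include H in
/-- the parity -/
theorem sgS_sum {S : Set k[X]} (hS : S ⊆ BadP a) :
    (Fintype.card (Tau a) : ZMod 2) + ∑ s, sgS a S s = (S.ncard : ZMod 2) := by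
  have h1 : S.ncard = (univ.filter fun s : Tau a => QQ a s ∈ S).card := by
    have h2 : S = QQ a '' {s : Tau a | QQ a s ∈ S} := by
      ext Q
      constructor
      · intro hQ
        have := hS hQ
        rw [badP_eq H] at this
        obtain ⟨s, rfl⟩ := this
        exact ⟨s, hQ, rfl⟩
      · rintro ⟨s, hs, rfl⟩
        exact hs
    conv_lhs => rw [h2]
    rw [Set.ncard_image_of_injective _ H.fam.inj, ← Set.ncard_coe_finset]
    congr 1
    ext s
    simp
  have h3 : ∑ s, sgS a S s = ((univ.filter fun s : Tau a => ¬ (QQ a s ∈ S)).card : ZMod 2) := by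
    unfold sgS
    rw [card_filter]
    push_cast
    refine sum_congr rfl fun s _ => ?_
    by_cases h : QQ a s ∈ S
    · simp [h]
    · simp [h]
  have h4 : Fintype.card (Tau a) = (univ.filter fun s : Tau a => QQ a s ∈ S).card +
      (univ.filter fun s : Tau a => ¬ (QQ a s ∈ S)).card := by
    rw [card_filter_add_card_filter_not, card_univ]
  rw [h1, h3, h4]
  push_cast
  have h5 : ∀ x y : ZMod 2, x + y + y = x := by decide
  exact h5 _ _

theorem clS_coe (hchar : ringChar k ≠ 2) {S : Set k[X]} (hS : S ⊆ BadP a) (m : ℕ) :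
    (Cl H (sgS a S) m : Set k[X]) = ClS a S m := by
  ext D
  rw [Cl, coe_filter]
  show (D ∈ Sf k m ∧ nb (QQ a) D ∧ clo H (sgS a S) D) ↔
    ((D.Monic ∧ D.natDegree = m ∧ Squarefree D ∧ ∀ i j, i ≠ j → IsCoprime D (a i - a j)) ∧
      {Q ∈ BadP a | SplitP a D Q} = S)
  rw [mem_Sf]
  have key : ∀ x y : ZMod 2, (x = 0 ∨ x = 1) := by decide
  have main : D.Monic → nb (QQ a) D → (clo H (sgS a S) D ↔ {Q ∈ BadP a | SplitP a D Q} = S) := by
    intro hm hn
    have h1 : ∀ s : Tau a, Pool.Agent.Y164.SZ.L 2 D (QQ a s) + (H.dat 0).g s = 0 ↔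
        SplitP a D (QQ a s) := fun s => split_iff H hchar s (hn s)
    have h2 : ∀ x : ZMod 2, x ≠ 0 → x = 1 := by decide
    constructor
    · intro hc
      ext Q
      constructor
      · rintro ⟨hQ, hs⟩
        rw [badP_eq H] at hQ
        obtain ⟨s, rfl⟩ := hQ
        have h3 := hc s
        rw [(h1 s).2 hs, sgS] at h3
        by_contra hQ
        rw [if_neg hQ] at h3
        exact one_ne_zero h3
      · intro hQ
        have hb := hS hQ
        have hb' := hb
        rw [badP_eq H] at hb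
        obtain ⟨s, rfl⟩ := hb
        have h3 := hc s
        rw [sgS, if_pos hQ] at h3
        exact ⟨hb', (h1 s).1 h3.symm⟩
    · intro he s
      rw [sgS]
      by_cases hQ : QQ a s ∈ S
      · rw [if_pos hQ]
        rw [← he] at hQ
        exact ((h1 s).2 hQ.2).symm
      · rw [if_neg hQ]
        symm
        apply h2
        intro h0
        apply hQ
        rw [← he]
        exact ⟨H.mem.1 s.2, (h1 s).1 h0⟩
  constructor
  · rintro ⟨⟨a1, a2, a3⟩, a4, a5⟩
    exact ⟨⟨a1, a2, a3, (nb_iff H a1).1 a4⟩, (main a1 a4).1 a5⟩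
  · rintro ⟨⟨a1, a2, a3, a4⟩, a5⟩
    have a6 := (nb_iff H a1).2 a4
    exact ⟨⟨a1, a2, a3⟩, a6, (main a1 a6).2 a5⟩

include H in
theorem tw3_coe (m : ℕ) : (((Sf k m).filter (nb (QQ a)) : Finset k[X]) : Set k[X]) = Tw3 a m := by
  ext D
  rw [coe_filter]
  show (D ∈ Sf k m ∧ nb (QQ a) D) ↔
    (D.Monic ∧ D.natDegree = m ∧ Squarefree D ∧ ∀ i j, i ≠ j → IsCoprime D (a i - a j))
  rw [mem_Sf]
  constructor
  · rintro ⟨⟨a1, a2, a3⟩, a4⟩
    exact ⟨a1, a2, a3, (nb_iff H a1).1 a4⟩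
  · rintro ⟨a1, a2, a3, a4⟩
    exact ⟨⟨a1, a2, a3⟩, (nb_iff H a1).2 a4⟩

end

theorem hasSum_par (s : ℕ) : HasSum (fun e : ℕ => if Even (e + s) then 2 * law2 e else 0) 1 := by
  have h := hasSum_lawc (s : ZMod 2)
  have e1 : lawc (s : ZMod 2) = fun e : ℕ => if Even (e + s) then 2 * law2 e else 0 := by
    funext e
    rw [lawc_eq]
    have h4 : ((e : ZMod 2) = (s : ZMod 2)) ↔ Even (e + s) := by
      rw [← ZMod.natCast_eq_zero_iff_even]
      push_cast
      have h5 : ∀ x y : ZMod 2, x = y ↔ x + y = 0 := by decide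
      exact h5 _ _
    simp only [h4]
  rw [e1] at h
  exact h

/-- **the law of the bounds for given reduction at the bad places** -/
theorem split_final {k : Type} [Field k] [Finite k]
    (h2 : (2 : k) ≠ 0) (hi : IsSquare (-1 : k))
    (K : Type) [Field K] [Algebra k[X] K] [IsFractionRing k[X] K]
    (N : ℕ) (hN : 1 ≤ N) (a : Fin 3 → k[X])
    (hdeg : ∀ i j, i ≠ j → (a i - a j).natDegree = N) (hsq : Squarefree (Del a)) :
    (BadP a).Finite ∧
    (∃ c : ℝ, 0 < c ∧ ∀ᶠ m : ℕ in atTop, c * (Nat.card k : ℝ) ^ m ≤ ((Tw3 a m).ncard : ℝ)) ∧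
    ∀ S : Set k[X], S ⊆ BadP a →
    (∀ ε : ℝ, 0 < ε → ∀ᶠ m : ℕ in atTop, Odd (m + N) →
      |(2 : ℝ) ^ (BadP a).ncard * ((ClS a S m).ncard : ℝ) - ((Tw3 a m).ncard : ℝ)| ≤
        ε * ((Tw3 a m).ncard : ℝ)) ∧
    ∀ 𝒜 : Set ℕ, ∀ ε : ℝ, 0 < ε → ∀ᶠ m : ℕ in atTop, Odd (m + N) →
      ((∑' e : ℕ, if e ∈ 𝒜 then (if Even (e + S.ncard) then 2 * law2 e else 0) else 0) - ε) *
        ((ClS a S m).ncard : ℝ) ≤
        (({D ∈ ClS a S m | ∃ e ∈ 𝒜, BoundedBy (cur K a D) k[X] (2 ^ e)}).ncard : ℝ) := by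
  letI : Fintype k := Fintype.ofFinite k
  have hchar : ringChar k ≠ 2 := by
    intro h
    apply h2
    have := ringChar.Nat.cast_ringChar (R := k)
    rw [h] at this
    exact_mod_cast this
  have hq := Pool.Agent.Y164.HG.four_le h2 hi
  have H : Geo a N := ⟨hchar, hi, ⟨1, rfl⟩, le_rfl, hN, hdeg, hsq⟩
  refine ⟨badP_fin H, ?_, ?_⟩
  · obtain ⟨c, hc, h⟩ := nb_lower H.fam hchar hq
    refine ⟨c, hc, ?_⟩
    filter_upwards [h] with m hm
    rw [← tw3_coe H, Set.ncard_coe_finset, Nat.card_eq_fintype_card]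
    exact hm
  intro S hS
  have hpar := sgS_sum H hS
  constructor
  · intro ε hε
    filter_upwards [cls_size H hi hchar hq (sgS a S) hε] with m hm ho
    obtain ⟨g1, g2⟩ := hm ho
    rw [← tw3_coe H, ← clS_coe H hchar hS, Set.ncard_coe_finset, Set.ncard_coe_finset,
      badP_card H, abs_le]
    constructor <;> linarith
  · intro 𝒜 ε hε
    filter_upwards [cls_law H hi hchar hq K (sgS a S) 𝒜 hε] with m hm ho
    have h3 := hm ho
    rw [hpar] at h3
    have e1 : (∑' e : ℕ, if e ∈ 𝒜 then lawc (S.ncard : ZMod 2) e else 0) =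
        ∑' e : ℕ, if e ∈ 𝒜 then (if Even (e + S.ncard) then 2 * law2 e else 0) else 0 := by
      refine tsum_congr fun e => ?_
      rw [lawc_eq]
      have h4 : ((e : ZMod 2) = (S.ncard : ZMod 2)) ↔ Even (e + S.ncard) := by
        rw [← ZMod.natCast_eq_zero_iff_even]
        push_cast
        have h5 : ∀ x y : ZMod 2, x = y ↔ x + y = 0 := by decide
        exact h5 _ _
      simp only [h4]
    rw [e1] at h3
    have e2 : {D ∈ ClS a S m | ∃ e ∈ 𝒜, BoundedBy (cur K a D) k[X] (2 ^ e)} =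
        (((Cl H (sgS a S) m).filter fun D => ∃ e ∈ 𝒜, BoundedBy (cur K a D) k[X] (2 ^ e) :
          Finset k[X]) : Set k[X]) := by
      rw [coe_filter, ← clS_coe H hchar hS]
      rfl
    rw [e2, Set.ncard_coe_finset, ← clS_coe H hchar hS, Set.ncard_coe_finset]
    exact h3

end Pool.Agent.Q269.SL
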