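import Pool.Agent.Q269.SL.Ct2

/-!
# Bounds for the indicator function of a given order of the kernel
-/

set_option autoImplicit false
set_option linter.all false

namespace Pool.Agent.Q269.SL

open Finset
open Pool.Agent.Y164.SZ (FDat KerP kLI kLI_eq AS)
open scoped Classical

/-- the value of a combination of the products at `ℓ ^ r` -/
noncomputable def evc (ℓ K : ℕ) (v : ℕ → ℝ) (r : ℕ) : ℝ :=
  ∑ j ∈ range (K + 1), v j * ∏ i ∈ range j, ((ℓ : ℝ) ^ r - (ℓ : ℝ) ^ i)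

/-- the order of the linear group -/
noncomputable def Ge (ℓ e : ℕ) : ℝ := ∏ i ∈ range e, ((ℓ : ℝ) ^ e - (ℓ : ℝ) ^ i)

theorem Ge_pos {ℓ : ℕ} (hℓ : 2 ≤ ℓ) (e : ℕ) : 0 < Ge ℓ e := by
  have h1 : (1 : ℝ) < ℓ := by exact_mod_cast hℓ
  apply prod_pos
  intro i hi
  rw [sub_pos]
  exact pow_lt_pow_right₀ h1 (mem_range.1 hi)

/-- the shifted coefficients -/
noncomputable def shc (ℓ K e : ℕ) (v : ℕ → ℝ) (n : ℕ) : ℝ :=
  if e ≤ n ∧ n ≤ K + e then v (n - e) * (((ℓ : ℝ) ^ (e * (n - e)))⁻¹ / Ge ℓ e) else 0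

theorem sum_shc (ℓ K e : ℕ) (v F : ℕ → ℝ) {K' : ℕ} (h : K + e ≤ K') :
    ∑ n ∈ range (K' + 1), shc ℓ K e v n * F n =
      ∑ j ∈ range (K + 1), v j * (((ℓ : ℝ) ^ (e * j))⁻¹ / Ge ℓ e) * F (e + j) := by
  obtain ⟨t, rfl⟩ := Nat.exists_eq_add_of_le h
  have h1 : K + e + t + 1 = e + ((K + 1) + t) := by ring
  rw [h1, sum_range_add, sum_range_add]
  have e1 : ∑ x ∈ range e, shc ℓ K e v x * F x = 0 := by
    apply sum_eq_zero
    intro x hx
    rw [shc, if_neg (by have := mem_range.1 hx; omega), zero_mul]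
  have e2 : ∑ x ∈ range t, shc ℓ K e v (e + (K + 1 + x)) * F (e + (K + 1 + x)) = 0 := by
    apply sum_eq_zero
    intro x _
    rw [shc, if_neg (by omega), zero_mul]
  rw [e1, e2, zero_add, add_zero]
  refine sum_congr rfl fun j hj => ?_
  rw [shc, if_pos (by have := mem_range.1 hj; omega), Nat.add_sub_cancel_left]

theorem prod_zero_of_lt {ℓ r e : ℕ} (h : r < e) :
    ∏ i ∈ range e, ((ℓ : ℝ) ^ r - (ℓ : ℝ) ^ i) = 0 :=
  prod_eq_zero (mem_range.2 h) (sub_self _)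

theorem prod_add (ℓ e s j : ℕ) : ∏ i ∈ range (e + j), ((ℓ : ℝ) ^ (e + s) - (ℓ : ℝ) ^ i) =
    (∏ i ∈ range e, ((ℓ : ℝ) ^ (e + s) - (ℓ : ℝ) ^ i)) *
      ((ℓ : ℝ) ^ (e * j) * ∏ i ∈ range j, ((ℓ : ℝ) ^ s - (ℓ : ℝ) ^ i)) := by
  rw [prod_range_add]
  congr 1
  rw [pow_mul]
  nth_rewrite 2 [← card_range j]
  rw [← prod_const, ← prod_mul_distrib]
  refine prod_congr rfl fun i _ => ?_
  rw [pow_add, pow_add]
  ring

/-- evaluation of the shifted coefficients -/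
theorem evc_shc {ℓ : ℕ} (hℓ : 2 ≤ ℓ) (K e : ℕ) (v : ℕ → ℝ) {K' : ℕ} (h : K + e ≤ K') (r : ℕ) :
    evc ℓ K' (shc ℓ K e v) r = if r < e then 0 else
      ((∏ i ∈ range e, ((ℓ : ℝ) ^ r - (ℓ : ℝ) ^ i)) / Ge ℓ e) * evc ℓ K v (r - e) := by
  have hl : (0 : ℝ) < ℓ := by
    have : 0 < ℓ := by omega
    exact_mod_cast this
  rw [evc, sum_shc ℓ K e v (fun n => ∏ i ∈ range n, ((ℓ : ℝ) ^ r - (ℓ : ℝ) ^ i)) h]
  by_cases hr : r < e
  · rw [if_pos hr]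
    apply sum_eq_zero
    intro j _
    rw [prod_zero_of_lt (show r < e + j by omega), mul_zero]
  · rw [if_neg hr, evc, mul_sum]
    obtain ⟨s, rfl⟩ := Nat.exists_eq_add_of_le (not_lt.1 hr)
    refine sum_congr rfl fun j _ => ?_
    rw [prod_add, Nat.add_sub_cancel_left]
    have h1 : (ℓ : ℝ) ^ (e * j) ≠ 0 := by positivity
    have h2 := (Ge_pos hℓ e).ne'
    field_simp

/-- the value of the functional with `m (e + j) = m e * m j * ℓ ^ (e j)` -/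
theorem mom_shc {ℓ : ℕ} (hℓ : 2 ≤ ℓ) (K e : ℕ) (v m : ℕ → ℝ) {K' : ℕ} (h : K + e ≤ K')
    (hm : ∀ j, m (e + j) = m e * m j * (ℓ : ℝ) ^ (e * j)) :
    ∑ n ∈ range (K' + 1), shc ℓ K e v n * m n =
      (m e / Ge ℓ e) * ∑ j ∈ range (K + 1), v j * m j := by
  have hl : (0 : ℝ) < ℓ := by
    have : 0 < ℓ := by omega
    exact_mod_cast this
  rw [sum_shc ℓ K e v m h, mul_sum]
  refine sum_congr rfl fun j _ => ?_
  rw [hm]
  have h1 : (ℓ : ℝ) ^ (e * j) ≠ 0 := by positivity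
  have h2 := (Ge_pos hℓ e).ne'
  field_simp

section ker
variable {ℓ : ℕ} [hp : Fact ℓ.Prime] {W τ : Type} [AddCommGroup W] [Module (ZMod ℓ) W] [Fintype W]
  [Fintype τ]

theorem sum_kLI {ι : Type} [Fintype ι] (D : FDat ℓ W τ) (A : ι → ι → ZMod ℓ)
    (B : ι → τ → ZMod ℓ) (d : ι → ZMod ℓ) {r : ℕ} (h : Nat.card (KerP D A B d) = ℓ ^ r) (K : ℕ)
    (v : ℕ → ℝ) : ∑ j ∈ range (K + 1), v j * (kLI D A B d j : ℝ) = evc ℓ K v r := by
  rw [evc]
  refine sum_congr rfl fun j _ => ?_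
  rw [kLI_eq, h]
  push_cast
  rfl

/-- the bounds for a given order of the kernel, from the bounds for the trivial kernel -/
theorem sanN_of (D : FDat ℓ W τ) {K e : ℕ} {l u : ℕ → ℝ} (cls : ℕ → Prop)
    (hlu : ∀ s, cls s → evc ℓ K l s ≤ (if s = 0 then (1 : ℝ) else 0) ∧
      (if s = 0 then (1 : ℝ) else 0) ≤ evc ℓ K u s)
    (hker : ∀ (ι : Type) [Fintype ι] (A : ι → ι → ZMod ℓ) (B : ι → τ → ZMod ℓ) (d : ι → ZMod ℓ),
      (∀ i j, A i j = A j i) → IsUnit (∑ i, d i + D.N) →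
      ∃ r, Nat.card (KerP D A B d) = ℓ ^ r ∧ (e ≤ r → cls (r - e))) {K' : ℕ} (h : K + e ≤ K') :
    SanN e (shc ℓ K e l) (shc ℓ K e u) K' D := by
  intro ι _ A B d hA hN
  obtain ⟨r, hr, hc⟩ := hker ι A B d hA hN
  have hℓ := hp.out.two_le
  have hl1 : (1 : ℝ) < ℓ := by exact_mod_cast hℓ
  rw [sum_kLI D A B d hr, sum_kLI D A B d hr, evc_shc hℓ K e l h, evc_shc hℓ K e u h]
  have hT : TrN D A B d e ↔ r = e := by
    rw [TrN, hr]
    exact ⟨fun h => Nat.pow_right_injective hℓ h, fun h => by rw [h]⟩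
  simp only [hT]
  by_cases h1 : r < e
  · rw [if_pos h1, if_pos h1, if_neg (by omega)]
    exact ⟨le_rfl, le_rfl⟩
  · rw [if_neg h1, if_neg h1]
    obtain ⟨h2, h3⟩ := hlu _ (hc (not_lt.1 h1))
    by_cases h4 : r = e
    · rw [h4, Nat.sub_self] at h2 h3 ⊢
      rw [if_pos rfl] at h2 h3 ⊢
      have h5 : (∏ i ∈ range e, ((ℓ : ℝ) ^ e - (ℓ : ℝ) ^ i)) / Ge ℓ e = 1 :=
        div_self (Ge_pos hℓ e).ne'
      rw [h5, one_mul, one_mul]
      exact ⟨h2, h3⟩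
    · rw [if_neg h4]
      rw [if_neg (by omega)] at h2 h3
      have h5 : 0 ≤ (∏ i ∈ range e, ((ℓ : ℝ) ^ r - (ℓ : ℝ) ^ i)) / Ge ℓ e := by
        apply div_nonneg _ (Ge_pos hℓ e).le
        apply prod_nonneg
        intro i hi
        rw [sub_nonneg]
        apply pow_le_pow_right₀ hl1.le
        have := mem_range.1 hi
        omega
      exact ⟨mul_nonpos_of_nonneg_of_nonpos h5 h2, mul_nonneg h5 h3⟩

/-- the bounds when the kernel never has the order -/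
theorem sanN_zero (D : FDat ℓ W τ) {e : ℕ}
    (hker : ∀ (ι : Type) [Fintype ι] (A : ι → ι → ZMod ℓ) (B : ι → τ → ZMod ℓ) (d : ι → ZMod ℓ),
      (∀ i j, A i j = A j i) → IsUnit (∑ i, d i + D.N) → ¬ TrN D A B d e) (K : ℕ) :
    SanN e (fun _ => 0) (fun _ => 0) K D := by
  intro ι _ A B d hA hN
  rw [if_neg (hker ι A B d hA hN)]
  simp only [zero_mul, sum_const_zero, le_refl, and_self]

end ker

end Pool.Agent.Q269.SL
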