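import Pool.Agent.Q269.SL.Prb

/-!
# The law in a class of twists
-/

set_option autoImplicit false
set_option linter.all false

namespace Pool.Agent.Q269.SL

open Finset Polynomial Filter Topology
open Pool.Agent.Q269.MF
open Pool.Agent.Y164.SZ (L AT BT ok SYM0 SYM FDat Triv kLI AS nb KerP)
open Pool.Agent.Y164.HG (Geo Tau QQ EW cur F2 kc)
open Pool.Agent.Y164.PS (Sf mem_Sf Fam)
open Pool.Agent.Y261.SZ (nb_lower)
open scoped Classical

section seq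
variable {R : Type} [Fintype R] [DecidableEq R]

theorem cx_tendsto {τ : R → Type} [∀ r, Fintype (τ r)] (𝒜 : Finset (R → ℕ))
    (σ : (Σ r, τ r) → ZMod 2) :
    Tendsto (fun K => ∑ e ∈ 𝒜, cX K e (parx e σ)) atTop
      (𝓝 (∑ e ∈ 𝒜, ∏ r, u2 bet (e r) (parx e σ r))) := by
  have hg := gK_tendsto
  have hg' : Tendsto (fun K => gK (K + 1)) atTop (𝓝 bet) := hg.comp (tendsto_add_atTop_nat 1)
  apply tendsto_finsetSum
  intro e _
  exact cP_tendsto (fun r => u2_tendsto hg' _ _) (fun r => u2_tendsto hg _ _)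

theorem cx_ex {τ : R → Type} [∀ r, Fintype (τ r)] (𝒜 : Finset (R → ℕ))
    (σ : (Σ r, τ r) → ZMod 2) {ε : ℝ} (hε : 0 < ε) : ∃ K : ℕ, Odd K ∧
      ∑ e ∈ 𝒜, ∏ r, u2 bet (e r) (parx e σ r) - ε ≤ ∑ e ∈ 𝒜, cX K e (parx e σ) := by
  obtain ⟨K0, hK0⟩ := eventually_atTop.1 ((cx_tendsto 𝒜 σ).eventually_const_le
    (show ∑ e ∈ 𝒜, ∏ r, u2 bet (e r) (parx e σ r) - ε <
      ∑ e ∈ 𝒜, ∏ r, u2 bet (e r) (parx e σ r) by linarith))
  exact ⟨2 * K0 + 1, ⟨K0, rfl⟩, hK0 _ (by omega)⟩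

end seq

section two
variable {k : Type} [Field k] [Fintype k] [DecidableEq k]
variable {R : Type} [Fintype R] [DecidableEq R] {n : R → ℕ} [∀ r, Fact (Odd (n r))]
  {a : (r : R) → Fin (n r) → k[X]} {N : R → ℕ} (H : ∀ r, Geo (a r) (N r))

include H in
/-- lower bounds in a class -/
theorem cls_lower (hi : IsSquare (-1 : k)) (hchar : ringChar k ≠ 2) (hq : 4 ≤ Fintype.card k)
    (hF : Fam (Q2 a)) (K : Type) [Field K] [Algebra k[X] K] [IsFractionRing k[X] K]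
    (σ : (Σ r, Tau (a r)) → ZMod 2) (𝒜 : Finset (R → ℕ)) {ε : ℝ} (hε : 0 < ε) :
    ∀ᶠ m : ℕ in atTop, (∀ r, Odd (m + N r)) →
      (∑ e ∈ 𝒜, ∏ r, u2 bet (e r) (parx e σ r) - ε) *
        (((Sf k m).filter (nb (Q2 a))).card : ℝ) ≤
      (2 : ℝ) ^ Fintype.card (Σ r, Tau (a r)) *
        (((Sf k m).filter (P2a (GoodX K a 𝒜) σ (gM (datT H 0)) (Q2 a))).card : ℝ) := by
  have S' : SYM 2 k := sym hchar hi
  obtain ⟨Kk, hKo, hK⟩ := cx_ex 𝒜 σ (half_pos hε)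
  obtain ⟨l, u, hl, hu, hlu⟩ := two_coef hKo
  have hcell : ∀ δ : ℝ, 0 < δ →
      CellA (Q2 a) σ (gM (datT H 0)) (fun x => ∀ r, IsUnit (x + (N r : ZMod 2)))
        (PUx (datT H σ) (Q2 a) 𝒜) (∑ e ∈ 𝒜, cX Kk e (parx e σ) - δ) :=
    fun δ hδ => cell_x H hl hu hlu σ 𝒜 hδ
  have h := class_cnt_b S' hF hchar hq (imp_x H hchar K 𝒜 σ) _ hcell (ε / 2) (half_pos hε)
  filter_upwards [h] with m hm ho
  have h3 : ∀ r, IsUnit ((m : ZMod 2) + (N r : ZMod 2)) := by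
    intro r
    have h4 : ((m + N r : ℕ) : ZMod 2) = 1 := (ZMod.natCast_eq_one_iff_odd).2 (ho r)
    have h5 : (m : ZMod 2) + (N r : ZMod 2) = 1 := by
      rw [← h4]
      push_cast
      rfl
    rw [h5]
    exact isUnit_one
  have h4 := hm h3
  push_cast at h4
  refine le_trans ?_ h4
  apply mul_le_mul_of_nonneg_right _ (Nat.cast_nonneg _)
  linarith

end two

end Pool.Agent.Q269.SL
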