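import Pool.Agent.Q269.MF.Lv

/-!
# Several families at the same time: the orders of the kernels
-/

set_option autoImplicit false
set_option linter.all false

namespace Pool.Agent.Q269.SL

open Finset Polynomial
open Pool.Agent.Y164.SZ
open Pool.Agent.Q269.MF
open scoped Classical

section San
variable {ℓ : ℕ} [hp : Fact ℓ.Prime] {W τ : Type} [AddCommGroup W] [Module (ZMod ℓ) W] [Fintype W]
  [Fintype τ]

/-- the kernel has order `ℓ ^ e` -/
def TrN {ι : Type} [Fintype ι] (D : FDat ℓ W τ) (A : ι → ι → ZMod ℓ) (B : ι → τ → ZMod ℓ)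
    (d : ι → ZMod ℓ) (e : ℕ) : Prop := Nat.card (KerP D A B d) = ℓ ^ e

/-- lower and upper bounds in terms of the numbers of independent tuples in the kernel -/
def SanN (e : ℕ) (l u : ℕ → ℝ) (K : ℕ) (D : FDat ℓ W τ) : Prop :=
  ∀ (ι : Type) [Fintype ι] (A : ι → ι → ZMod ℓ) (B : ι → τ → ZMod ℓ) (d : ι → ZMod ℓ),
    (∀ i j, A i j = A j i) → IsUnit (∑ i, d i + D.N) →
    ∑ j ∈ range (K + 1), l j * (kLI D A B d j : ℝ) ≤ (if TrN D A B d e then (1 : ℝ) else 0) ∧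
    (if TrN D A B d e then (1 : ℝ) else 0) ≤ ∑ j ∈ range (K + 1), u j * (kLI D A B d j : ℝ)

end San

section lin
variable {ℓ : ℕ} [hp : Fact ℓ.Prime] {k : Type} [Field k] [Fintype k] [DecidableEq k]
variable {R : Type} [Fintype R] [DecidableEq R] {W : R → Type}
  [∀ r, AddCommGroup (W r)] [∀ r, Module (ZMod ℓ) (W r)] [∀ r, Fintype (W r)]
variable {τ : R → Type} [∀ r, Fintype (τ r)] (D : (r : R) → FDat ℓ (W r) (τ r))
variable {ι : Type} [Fintype ι]
variable {Q : (Σ r, τ r) → k[X]} {d : ι → ZMod ℓ} {𝒞 : ι → Finset k[X]}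

/-- the orders of the kernels -/
def PSx (D : (r : R) → FDat ℓ (W r) (τ r)) (Q : (Σ r, τ r) → k[X]) (e : R → ℕ) (ι : Type)
    [Fintype ι] (d : ι → ZMod ℓ) (T : ι → k[X]) : Prop :=
  ∀ r, TrN (D r) (AT ℓ T) (BT ℓ (Qr Q r) T) d (e r)

/-- the vector of the dimensions of the kernels belongs to `𝒜` -/
def PUx (D : (r : R) → FDat ℓ (W r) (τ r)) (Q : (Σ r, τ r) → k[X]) (𝒜 : Finset (R → ℕ))
    (ι : Type) [Fintype ι] (d : ι → ZMod ℓ) (T : ι → k[X]) : Prop :=
  ∃ e ∈ 𝒜, PSx D Q e ι d T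

theorem XX_ge_n {K : ℕ} {l u : R → ℕ → ℝ} {e : R → ℕ}
    (hS : ∀ r, SanN (e r) (l r) (u r) K (D r)) (hsym : SYM0 ℓ k)
    (hN : ∀ r, IsUnit (∑ i, d i + (D r).N)) :
    ∑ T ∈ Fintype.piFinset 𝒞, (if ok Q T ∧ clM D Q T then EX D Q d K u T else 0) -
    ∑ r : R, ∑ T ∈ Fintype.piFinset 𝒞, (if ok Q T ∧ clM D Q T then
      EX D Q d K (fun r' => if r' = r then (fun j => u r j - l r j) else u r') T else 0) ≤
    XXa Q (spM D) (gM D) (PSx D Q e ι d) 𝒞 := by
  rw [sum_comm, ← sum_sub_distrib, XXa]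
  apply sum_le_sum
  intro T _
  by_cases h : ok Q T ∧ clM D Q T
  · simp only [if_pos h]
    have h' : ok Q T ∧ cla (spM D) (gM D) Q T := ⟨h.1, (cla_iff D T).2 h.2⟩
    obtain ⟨x, hx⟩ : ∃ x : R → ℝ, x = fun r =>
      (if TrN (D r) (AT ℓ T) (BT ℓ (Qr Q r) T) d (e r) then (1 : ℝ) else 0) := ⟨_, rfl⟩
    obtain ⟨U, hU⟩ : ∃ U : R → ℝ, U = fun r => ∑ j ∈ range (K + 1), u r j *
      (kLI (D r) (AT ℓ T) (BT ℓ (Qr Q r) T) d j : ℝ) := ⟨_, rfl⟩
    obtain ⟨Lo, hL⟩ : ∃ Lo : R → ℝ, Lo = fun r => ∑ j ∈ range (K + 1), l r j *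
      (kLI (D r) (AT ℓ T) (BT ℓ (Qr Q r) T) d j : ℝ) := ⟨_, rfl⟩
    have h1 := prod_ge_sub univ x Lo U (fun r => by rw [hx]; dsimp only; split_ifs <;> norm_num)
      (fun r => by
        rw [hx, hL]
        exact (hS r ι (AT ℓ T) (BT ℓ (Qr Q r) T) d (AT_comm hsym T) (hN r)).1)
      (fun r => by
        rw [hx, hU]
        exact (hS r ι (AT ℓ T) (BT ℓ (Qr Q r) T) d (AT_comm hsym T) (hN r)).2)
    have h2 : ∏ r, x r ≤ if (ok Q T ∧ cla (spM D) (gM D) Q T) ∧ PSx D Q e ι d T then (1 : ℝ)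
        else 0 := by
      by_cases h3 : PSx D Q e ι d T
      · rw [if_pos ⟨h', h3⟩]
        apply prod_le_one
        · intro r _
          rw [hx]
          dsimp only
          split_ifs <;> norm_num
        · intro r _
          rw [hx]
          dsimp only
          split_ifs <;> norm_num
      · rw [if_neg (fun h => h3 h.2)]
        unfold PSx at h3
        rw [not_forall] at h3
        obtain ⟨r, hr⟩ := h3
        apply le_of_eq
        apply prod_eq_zero (mem_univ r)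
        rw [hx]
        exact if_neg hr
    refine le_trans (le_of_eq ?_) (h1.trans h2)
    congr 1
    · rw [EX, hU]
    · refine sum_congr rfl fun r _ => ?_
      rw [EX, ← mul_prod_erase univ _ (mem_univ r)]
      congr 1
      · simp only [if_pos]
        rw [hU, hL]
        dsimp only
        rw [← sum_sub_distrib]
        exact sum_congr rfl fun j _ => by ring
      · refine prod_congr rfl fun r' hr' => ?_
        simp only [if_neg (ne_of_mem_erase hr')]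
        rw [hU]
  · simp only [if_neg h, sum_const_zero, sub_zero]
    split_ifs <;> norm_num

/-- the estimate in the cells -/
theorem cell_n (hw : ∀ r, 2 ≤ Fintype.card (W r)) (hG : ∀ r, CN (D r))
    (hDg : SYM0 ℓ k → ∀ (ι : Type) [Fintype ι] (d : ι → ZMod ℓ), Dg D Q d)
    {K : ℕ} {l u : R → ℕ → ℝ} {e : R → ℕ} (hS : ∀ r, SanN (e r) (l r) (u r) K (D r))
    {ε : ℝ} (hε : 0 < ε) :
    CellA Q (spM D) (gM D) (fun x => ∀ r, IsUnit (x + (D r).N)) (PSx D Q e)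
      (cUL ℓ K l u - ε) := by
  have hl := hp.out.one_lt
  have hl1 : (1 : ℝ) ≤ ℓ := by exact_mod_cast hl.le
  obtain ⟨Bv, hBv⟩ : ∃ Bv : (R → ℕ → ℝ) → ℝ, Bv = fun v =>
    ∑ m ∈ Fintype.piFinset (fun _ : R => range (K + 1)), |∏ r, v r (m r)| *
      (4 + ∏ r, ((AS ℓ (m r)).card : ℝ)) := ⟨_, rfl⟩
  have hBv0 : ∀ v, 0 ≤ Bv v := by
    intro v
    rw [hBv]
    apply sum_nonneg
    intro m _
    apply mul_nonneg (abs_nonneg _)
    have : (0 : ℝ) ≤ ∏ r, ((AS ℓ (m r)).card : ℝ) := prod_nonneg fun r _ => Nat.cast_nonneg _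
    linarith
  obtain ⟨BK, hBKd⟩ : ∃ BK : ℝ, BK = Bv u +
    ∑ r : R, Bv (fun r' => if r' = r then (fun j => u r j - l r j) else u r') := ⟨_, rfl⟩
  have hBK : 0 ≤ BK := by
    rw [hBKd]
    exact add_nonneg (hBv0 _) (sum_nonneg fun r _ => hBv0 _)
  obtain ⟨δ, hδd⟩ : ∃ δ : ℝ, δ = min (1 / 2) (ε / (BK + 1)) := ⟨_, rfl⟩
  have hδ : 0 < δ := by
    rw [hδd]
    exact lt_min (by norm_num) (by positivity)
  have hδ2 : δ ≤ 1 / 2 := by rw [hδd]; exact min_le_left _ _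
  have hδ3 : BK * δ ≤ ε := by
    have h3 : δ ≤ ε / (BK + 1) := by rw [hδd]; exact min_le_right _ _
    have h4 : BK * (ε / (BK + 1)) ≤ ε := by
      rw [mul_div_assoc', div_le_iff₀ (by linarith)]
      nlinarith
    exact (mul_le_mul_of_nonneg_left h3 hBK).trans h4
  have hw0 : ∀ r, 0 < Fintype.card (W r) := fun r => by have := hw r; omega
  have hP1 : 1 ≤ PW W (fun _ => K) := prod_pos fun r _ => pow_pos (hw0 r) _
  obtain ⟨P, hP⟩ : ∃ P : ℕ, P = PW W (fun _ => K) := ⟨_, rfl⟩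
  rw [← hP] at hP1
  obtain ⟨C1, hC1⟩ : ∃ C1 : ℝ, C1 = 2 ^ (P ^ 2) *
      (ℓ : ℝ) ^ (Fintype.card (Σ r, τ r) * (2 * K + 1)) * (P : ℝ) := ⟨_, rfl⟩
  obtain ⟨C2, hC2⟩ : ∃ C2 : ℝ, C2 = ((ℓ : ℝ) ^ Fintype.card (Σ r, τ r)) ^ (K + 1) := ⟨_, rfl⟩
  obtain ⟨C3, hC3⟩ : ∃ C3 : ℝ, C3 = 2 * (ℓ : ℝ) ^ K * (PW W (fun _ => 1) : ℝ) *
    (Fintype.card R + 1) := ⟨_, rfl⟩
  have hP1r : (1 : ℝ) ≤ P := by exact_mod_cast hP1
  have h1C1 : 0 ≤ C1 := by rw [hC1]; positivity
  have h1C2 : 1 ≤ C2 := by rw [hC2]; exact one_le_pow₀ (one_le_pow₀ hl1)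
  have h1C3 : 0 ≤ C3 := by rw [hC3]; positivity
  refine ⟨P ^ 2 + 1, 2 * P, (C1 + C2 + C3) / δ, by omega, by omega, ?_, ?_⟩
  · rw [le_div_iff₀ hδ]
    linarith
  intro ι _ d 𝒞 lg Nd η s hc hN hsing hs1 hR hs hA hB
  have hη := hc.eta0
  have hl0 : (0 : ℝ) < ℓ := by linarith
  have ht : (0 : ℝ) < (ℓ : ℝ) ^ Fintype.card (Σ r, τ r) := by positivity
  have hx : (0 : ℝ) ≤ (1 / 2 : ℝ) ^ s := by positivity
  have hA1 : C1 * (1 / 2) ^ s ≤ δ ∧ C3 * (1 / 2) ^ s ≤ δ := by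
    rw [div_mul_eq_mul_div, div_le_one hδ] at hA
    have a1 : 0 ≤ C1 * (1 / 2) ^ s := mul_nonneg h1C1 hx
    have a2 : 0 ≤ C2 * (1 / 2) ^ s := mul_nonneg (by linarith) hx
    have a3 : 0 ≤ C3 * (1 / 2) ^ s := mul_nonneg h1C3 hx
    constructor <;> linarith
  have hy : (0 : ℝ) ≤ ((2 * P : ℕ) : ℝ) ^ Fintype.card ι := by positivity
  have hB0 : η * ((C1 + C2 + C3) * ((2 * P : ℕ) : ℝ) ^ Fintype.card ι) ≤ δ := by
    have : η * ((C1 + C2 + C3) / δ * ((2 * P : ℕ) : ℝ) ^ Fintype.card ι) =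
        (η * ((C1 + C2 + C3) * ((2 * P : ℕ) : ℝ) ^ Fintype.card ι)) / δ := by
      field_simp
    rw [this, div_le_one hδ] at hB
    exact hB
  have hB1 : η * ((P : ℝ) ^ Fintype.card ι *
      ((ℓ : ℝ) ^ Fintype.card (Σ r, τ r)) ^ (K + 1)) ≤ δ := by
    refine le_trans ?_ hB0
    apply mul_le_mul_of_nonneg_left _ hη
    rw [← hC2, mul_comm]
    have h1 : (P : ℝ) ^ Fintype.card ι ≤ ((2 * P : ℕ) : ℝ) ^ Fintype.card ι := by
      apply pow_le_pow_left₀ (by linarith)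
      push_cast
      linarith
    exact mul_le_mul (by linarith) h1 (by positivity) (by linarith)
  by_cases hsm : ∀ T ∈ Fintype.piFinset 𝒞, ∀ x y : ι ⊕ (Σ r, τ r), (∀ j ∈ lg, x ≠ Sum.inl j) →
    (∀ j ∈ lg, y ≠ Sum.inl j) → Sum.elim T Q x = Sum.elim T Q y → x = y
  · have hOK : ((Fintype.piFinset 𝒞).card : ℝ) ≤ 2 * OK Q 𝒞 := by
      have h3 := OK_ge hc hsm
      have h4 : (lg.card : ℝ) * η ≤ 1 / 2 := by
        have h5 : (lg.card : ℝ) ≤ (C1 + C2 + C3) * ((2 * P : ℕ) : ℝ) ^ Fintype.card ι := by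
          have hlm : lg.card ≤ Fintype.card ι := card_le_univ _
          have h6 : Fintype.card ι < (2 * P) ^ Fintype.card ι :=
            Nat.lt_pow_self (by omega)
          have h7 : (lg.card : ℝ) ≤ ((2 * P : ℕ) : ℝ) ^ Fintype.card ι := by
            exact_mod_cast hlm.trans h6.le
          refine h7.trans (le_mul_of_one_le_left hy ?_)
          linarith
        have h6 := mul_le_mul_of_nonneg_left h5 hη
        linarith
      have h5 : (0 : ℝ) ≤ ((Fintype.piFinset 𝒞).card : ℝ) := Nat.cast_nonneg _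
      nlinarith
    have hX0 : 0 ≤ OK Q 𝒞 := OK_nonneg
    have hmom : ∀ m : R → ℕ, (∀ r, m r ≤ K) → |SSm D Q d 𝒞 m *
        (ℓ : ℝ) ^ Fintype.card (Σ r, τ r) -
        (∏ r, ((AS ℓ (m r)).card : ℝ)) * OK Q 𝒞| ≤
        (4 + ∏ r, ((AS ℓ (m r)).card : ℝ)) * δ * OK Q 𝒞 := by
      intro m hm
      exact mom_m D hc hN hG (hDg hc.S ι d) hw hm hδ hδ2 (by rw [← hP]; exact hR) hs
        (by rw [← hP, ← hC1]; exact hA1.1) (by rw [← hP]; exact hB1)
        (by rw [← hC3]; exact hA1.2) hOK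
    have h3 := XX_ge_n D (Q := Q) (𝒞 := 𝒞) (d := d) hS hc.S hN
    have h4 := mul_le_mul_of_nonneg_left h3 ht.le
    refine le_trans ?_ h4
    rw [mul_sub, mul_sum (univ : Finset R)]
    have h5 := lin_est D hX0 ht.le hmom u
    have h6 : ∀ r : R, (ℓ : ℝ) ^ Fintype.card (Σ r, τ r) *
        ∑ T ∈ Fintype.piFinset 𝒞, (if ok Q T ∧ clM D Q T then
          EX D Q d K (fun r' => if r' = r then (fun j => u r j - l r j) else u r') T else 0) ≤
        ((∑ j ∈ range (K + 1), u r j * ((AS ℓ j).card : ℝ) -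
          ∑ j ∈ range (K + 1), l r j * ((AS ℓ j).card : ℝ)) *
          ∏ r' ∈ univ.erase r, ∑ j ∈ range (K + 1), u r' j * ((AS ℓ j).card : ℝ)) * OK Q 𝒞 +
        Bv (fun r' => if r' = r then (fun j => u r j - l r j) else u r') * δ * OK Q 𝒞 := by
      intro r
      have h7 := lin_est D hX0 ht.le hmom
        (fun r' => if r' = r then (fun j => u r j - l r j) else u r')
      have h8 := (abs_le.1 h7).2
      have h9 : ∏ r', ∑ j ∈ range (K + 1),
          (if r' = r then (fun j => u r j - l r j) else u r') j *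
          ((AS ℓ j).card : ℝ) = (∑ j ∈ range (K + 1), u r j * ((AS ℓ j).card : ℝ) -
          ∑ j ∈ range (K + 1), l r j * ((AS ℓ j).card : ℝ)) *
          ∏ r' ∈ univ.erase r, ∑ j ∈ range (K + 1), u r' j * ((AS ℓ j).card : ℝ) := by
        rw [← mul_prod_erase univ _ (mem_univ r)]
        congr 1
        · simp only [if_pos]
          rw [← sum_sub_distrib]
          exact sum_congr rfl fun j _ => by ring
        · refine prod_congr rfl fun r' hr' => ?_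
          simp only [if_neg (ne_of_mem_erase hr')]
      rw [h9] at h8
      rw [hBv]
      linarith
    have h7 := sum_le_sum fun (r : R) (_ : r ∈ univ) => h6 r
    rw [sum_add_distrib, ← sum_mul, ← sum_mul, ← sum_mul] at h7
    have h8 := (abs_le.1 h5).1
    have h9 : Bv u = ∑ m ∈ Fintype.piFinset (fun _ : R => range (K + 1)),
      |∏ r, u r (m r)| * (4 + ∏ r, ((AS ℓ (m r)).card : ℝ)) := by rw [hBv]
    rw [← h9] at h8
    have h10 : BK * δ * OK Q 𝒞 ≤ ε * OK Q 𝒞 := mul_le_mul_of_nonneg_right hδ3 hX0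
    rw [hBKd] at h10
    rw [cUL]
    linarith
  · push Not at hsm
    obtain ⟨T0, hT0, x, y, hx, hy, hxy, hne⟩ := hsm
    have hno : ∀ T ∈ Fintype.piFinset 𝒞, ¬ ok Q T := by
      intro T hT hok
      apply hne
      apply hok
      have key : ∀ x : ι ⊕ (Σ r, τ r), (∀ j ∈ lg, x ≠ Sum.inl j) →
          Sum.elim T Q x = Sum.elim T0 Q x := by
        rintro (i | s) hx
        · have hi : i ∉ lg := fun h => hx i h rfl
          obtain ⟨p, hp⟩ := hsing i hi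
          have h5 := Fintype.mem_piFinset.1 hT i
          have h6 := Fintype.mem_piFinset.1 hT0 i
          rw [hp, mem_singleton] at h5 h6
          show T i = T0 i
          rw [h5, h6]
        · rfl
      rw [key x hx, key y hy, hxy]
    have h6 : OK Q 𝒞 = 0 := sum_eq_zero fun T hT => if_neg fun h => hno T hT h
    rw [h6, mul_zero]
    exact mul_nonneg ht.le (XXa_nonneg _ _ _ _ _)

/-- the estimate in the cells for sets of patterns -/
theorem cell_nu (hw : ∀ r, 2 ≤ Fintype.card (W r)) (hG : ∀ r, CN (D r))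
    (hDg : SYM0 ℓ k → ∀ (ι : Type) [Fintype ι] (d : ι → ZMod ℓ), Dg D Q d)
    {K : ℕ} {l u : (R → ℕ) → R → ℕ → ℝ} (𝒜 : Finset (R → ℕ))
    (hS : ∀ e ∈ 𝒜, ∀ r, SanN (e r) (l e r) (u e r) K (D r))
    {ε : ℝ} (hε : 0 < ε) :
    CellA Q (spM D) (gM D) (fun x => ∀ r, IsUnit (x + (D r).N)) (PUx D Q 𝒜)
      (∑ e ∈ 𝒜, cUL ℓ K (l e) (u e) - ε) := by
  have h1 : CellA Q (spM D) (gM D) (fun x => ∀ r, IsUnit (x + (D r).N)) (PUx D Q 𝒜)
      (∑ e ∈ 𝒜, (cUL ℓ K (l e) (u e) - ε / (𝒜.card + 1))) := by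
    apply CellA.sum 𝒜 (PP := fun e => PSx D Q e)
    · intro e he
      exact cell_n D hw hG hDg (hS e he) (by positivity)
    · intro ι _ d T
      have h2 : ∀ e e' : R → ℕ, PSx D Q e ι d T → PSx D Q e' ι d T → e = e' := by
        intro e e' h h'
        funext r
        have h3 := (h r).symm.trans (h' r)
        exact Nat.pow_right_injective hp.out.two_le h3
      by_cases h3 : PUx D Q 𝒜 ι d T
      · rw [if_pos h3]
        obtain ⟨e0, he0, h4⟩ := h3
        rw [sum_eq_single e0]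
        · split_ifs <;> norm_num
        · intro b _ hb
          exact if_neg fun h => hb (h2 b e0 h h4)
        · intro h
          exact absurd he0 h
      · rw [if_neg h3]
        apply le_of_eq
        apply sum_eq_zero
        intro b hb
        apply if_neg
        intro h
        exact h3 ⟨b, hb, h⟩
  have h2 : ∑ e ∈ 𝒜, cUL ℓ K (l e) (u e) - ε ≤
      ∑ e ∈ 𝒜, (cUL ℓ K (l e) (u e) - ε / (𝒜.card + 1)) := by
    rw [sum_sub_distrib, sum_const, nsmul_eq_mul]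
    have h3 : (𝒜.card : ℝ) * (ε / (𝒜.card + 1)) ≤ ε := by
      rw [mul_div_assoc', div_le_iff₀ (by positivity)]
      nlinarith
    linarith
  obtain ⟨R', w, C, h3, h4, h5, h6⟩ := h1
  refine ⟨R', w, C, h3, h4, h5, ?_⟩
  intro ι _ d 𝒞 lg Nd η s hc hN hsing hs1 hR hs hA hB
  refine le_trans ?_ (h6 ι d 𝒞 lg Nd η s hc hN hsing hs1 hR hs hA hB)
  exact mul_le_mul_of_nonneg_right h2 OK_nonneg

end lin

end Pool.Agent.Q269.SL
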