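import Pool.Agent.Q269.SL.Pa

/-!
# The weights `law2` are a probability distribution (Euler)
-/

set_option autoImplicit false
set_option linter.all false

namespace Pool.Agent.Q269.SL

open Finset Filter Topology
open Pool.Agent.Q269.MF

/-- `1 / ((2 - 1) (2 ^ 2 - 1) ... (2 ^ e - 1))` -/
noncomputable def ce (e : ℕ) : ℝ := 1 / ∏ i ∈ range e, ((2 : ℝ) ^ (i + 1) - 1)

theorem one_le_pm (i : ℕ) : (1 : ℝ) ≤ (2 : ℝ) ^ (i + 1) - 1 := by
  have h : (1 : ℝ) ≤ 2 ^ i := one_le_pow₀ (by norm_num)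
  rw [pow_succ]
  linarith

theorem ce_pos (e : ℕ) : 0 < ce e := by
  apply one_div_pos.2
  exact prod_pos fun i _ => lt_of_lt_of_le one_pos (one_le_pm i)

theorem ce_succ (e : ℕ) : ce (e + 1) * (2 ^ (e + 1) - 1) = ce e := by
  rw [ce, ce, prod_range_succ]
  have h1 := one_le_pm e
  have h2 : (0 : ℝ) < 2 ^ (e + 1) - 1 := by linarith
  have h3 : (0 : ℝ) < ∏ i ∈ range e, ((2 : ℝ) ^ (i + 1) - 1) :=
    prod_pos fun i _ => lt_of_lt_of_le one_pos (one_le_pm i)
  rw [div_mul_eq_mul_div, one_mul, div_eq_div_iff (by positivity) h3.ne']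
  ring

theorem ce_succ_le (e : ℕ) : ce (e + 1) ≤ ce e * (1 / 2) ^ e := by
  rw [← ce_succ e]
  have h1 : (2 : ℝ) ^ e ≤ 2 ^ (e + 1) - 1 := by
    have h : (1 : ℝ) ≤ 2 ^ e := one_le_pow₀ (by norm_num)
    rw [pow_succ]
    linarith
  have h2 := ce_pos (e + 1)
  have h3 : ce (e + 1) = ce (e + 1) * 2 ^ e * (1 / 2) ^ e := by
    rw [mul_assoc, ← mul_pow]
    norm_num
  calc ce (e + 1) = ce (e + 1) * 2 ^ e * (1 / 2) ^ e := h3
    _ ≤ ce (e + 1) * (2 ^ (e + 1) - 1) * (1 / 2) ^ e := by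
        apply mul_le_mul_of_nonneg_right _ (by positivity)
        exact mul_le_mul_of_nonneg_left h1 h2.le

theorem ce_le_one (e : ℕ) : ce e ≤ 1 := by
  rw [ce, div_le_one (prod_pos fun i _ => lt_of_lt_of_le one_pos (one_le_pm i))]
  induction e with
  | zero => simp
  | succ n ih =>
    rw [prod_range_succ]
    exact one_le_mul_of_one_le_of_one_le ih (one_le_pm n)

theorem ce_le (e : ℕ) : ce (e + 1) ≤ (1 / 2) ^ e :=
  (ce_succ_le e).trans (mul_le_of_le_one_left (by positivity) (ce_le_one e))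

theorem summ {x : ℝ} (h0 : 0 ≤ x) (h1 : x ≤ 1) : Summable fun r => ce r * x ^ r := by
  rw [← summable_nat_add_iff 1]
  refine Summable.of_nonneg_of_le (fun r => ?_) (fun r => ?_)
    (summable_geometric_of_lt_one (r := (1 / 2 : ℝ)) (by norm_num) (by norm_num))
  · have := ce_pos (r + 1)
    positivity
  · calc ce (r + 1) * x ^ (r + 1) ≤ ce (r + 1) * 1 := by
          refine mul_le_mul_of_nonneg_left (pow_le_one₀ h0 h1) (ce_pos _).le
      _ ≤ (1 / 2) ^ r := by rw [mul_one]; exact ce_le r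

/-- Euler's series -/
noncomputable def Fe (x : ℝ) : ℝ := ∑' r, ce r * x ^ r

theorem ce_zero : ce 0 = 1 := by simp [ce]

theorem Fe_double {x : ℝ} (h0 : 0 ≤ x) (h1 : 2 * x ≤ 1) : Fe (2 * x) = (1 + x) * Fe x := by
  have hx : x ≤ 1 := by linarith
  have s1 := summ h0 hx
  have s2 := summ (x := 2 * x) (by linarith) h1
  have e1 : Fe (2 * x) = 1 + ∑' r, ce (r + 1) * (2 * x) ^ (r + 1) := by
    unfold Fe
    rw [s2.tsum_eq_zero_add]
    simp [ce_zero]
  have e2 : Fe x = 1 + ∑' r, ce (r + 1) * x ^ (r + 1) := by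
    unfold Fe
    rw [s1.tsum_eq_zero_add]
    simp [ce_zero]
  have e3 : ∑' r, ce (r + 1) * (2 * x) ^ (r + 1) = ∑' r, ce (r + 1) * x ^ (r + 1) + x * Fe x := by
    unfold Fe
    rw [← tsum_mul_left, ← Summable.tsum_add ((summable_nat_add_iff 1).2 s1) (s1.mul_left x)]
    refine tsum_congr fun r => ?_
    rw [← ce_succ r, mul_pow, pow_succ x]
    ring
  rw [e1, e3, ← add_assoc, ← e2]
  ring

theorem Fe_prod (n : ℕ) : Fe 1 = (∏ i ∈ range n, (1 + (1 / 2 : ℝ) ^ (i + 1))) * Fe ((1 / 2) ^ n) := by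
  induction n with
  | zero => simp
  | succ n ih =>
    have h : (1 / 2 : ℝ) ^ n = 2 * (1 / 2) ^ (n + 1) := by
      rw [pow_succ]
      ring
    have h1 : (1 / 2 : ℝ) ^ n ≤ 1 := pow_le_one₀ (by norm_num) (by norm_num)
    rw [ih, h, Fe_double (by positivity) (by rw [← h]; exact h1), Finset.prod_range_succ]
    ring

theorem Fe_near {x : ℝ} (h0 : 0 ≤ x) (h1 : x ≤ 1) : |Fe x - 1| ≤ 2 * x := by
  have s1 := summ h0 h1
  have e2 : Fe x - 1 = ∑' r, ce (r + 1) * x ^ (r + 1) := by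
    unfold Fe
    rw [s1.tsum_eq_zero_add]
    simp [ce_zero]
  have s2 := (summable_nat_add_iff 1).2 s1
  have hn : 0 ≤ ∑' r, ce (r + 1) * x ^ (r + 1) := tsum_nonneg fun r => by
    have := ce_pos (r + 1)
    positivity
  rw [e2, abs_of_nonneg hn]
  have s3 := (summable_geometric_of_lt_one (r := (1 / 2 : ℝ)) (by norm_num) (by norm_num)).mul_left x
  refine (s2.tsum_le_tsum (fun r => ?_) s3).trans (le_of_eq ?_)
  · calc ce (r + 1) * x ^ (r + 1) ≤ (1 / 2) ^ r * x := by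
          refine mul_le_mul (ce_le r) ?_ (by positivity) (by positivity)
          rw [pow_succ]
          exact mul_le_of_le_one_left h0 (pow_le_one₀ h0 h1)
      _ = x * (1 / 2) ^ r := mul_comm _ _
  · rw [tsum_mul_left, tsum_geometric_of_lt_one (by norm_num) (by norm_num)]
    norm_num
    ring

/-- the finite form of Euler's identity -/
theorem prod_fin (n : ℕ) : (∏ i ∈ range n, (1 - (1 / 2 : ℝ) ^ (2 * i + 1))) *
    (∏ i ∈ range n, (1 + (1 / 2 : ℝ) ^ (i + 1))) * (∏ i ∈ range n, (1 - (1 / 2 : ℝ) ^ (i + 1))) =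
    ∏ i ∈ range (2 * n), (1 - (1 / 2 : ℝ) ^ (i + 1)) := by
  induction n with
  | zero => simp
  | succ n ih =>
    rw [Finset.prod_range_succ, Finset.prod_range_succ, Finset.prod_range_succ,
      show 2 * (n + 1) = 2 * n + 1 + 1 by ring, Finset.prod_range_succ, Finset.prod_range_succ, ← ih]
    have e : (1 / 2 : ℝ) ^ (2 * n + 1 + 1) = (1 / 2) ^ (n + 1) * (1 / 2) ^ (n + 1) := by
      rw [← pow_add]
      congr 1
      ring
    rw [e]
    ring

theorem prod_up (n : ℕ) : ∏ i ∈ range (2 * n), (1 - (1 / 2 : ℝ) ^ (i + 1)) ≤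
    ∏ i ∈ range n, (1 - (1 / 2 : ℝ) ^ (i + 1)) ∧
    (∏ i ∈ range n, (1 - (1 / 2 : ℝ) ^ (i + 1))) * (1 - (1 / 2) ^ n) ≤
    ∏ i ∈ range (2 * n), (1 - (1 / 2 : ℝ) ^ (i + 1)) := by
  have hpos : ∀ i : ℕ, 0 < 1 - (1 / 2 : ℝ) ^ (i + 1) := fun i => by
    have : (1 / 2 : ℝ) ^ (i + 1) < 1 := pow_lt_one₀ (by norm_num) (by norm_num) (by omega)
    linarith
  have hle : ∀ i : ℕ, 1 - (1 / 2 : ℝ) ^ (i + 1) ≤ 1 := fun i => by
    have : (0 : ℝ) < (1 / 2 : ℝ) ^ (i + 1) := by positivity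
    linarith
  rw [two_mul, Finset.prod_range_add]
  have h0 : 0 < ∏ i ∈ range n, (1 - (1 / 2 : ℝ) ^ (i + 1)) := Finset.prod_pos fun i _ => hpos i
  have key : ∀ m : ℕ, 1 - (1 / 2 : ℝ) ^ n + (1 / 2) ^ (n + m) ≤
      ∏ i ∈ range m, (1 - (1 / 2 : ℝ) ^ (n + i + 1)) := by
    intro m
    induction m with
    | zero => simp
    | succ m ih =>
      rw [Finset.prod_range_succ]
      have hp : ∏ i ∈ range m, (1 - (1 / 2 : ℝ) ^ (n + i + 1)) ≤ 1 :=
        Finset.prod_le_one (fun i _ => (hpos _).le) fun i _ => hle _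
      have e1 : (1 / 2 : ℝ) ^ (n + (m + 1)) = (1 / 2) ^ (n + m) / 2 := by
        rw [← add_assoc, pow_succ]
        ring
      have e2 : (1 / 2 : ℝ) ^ (n + m + 1) = (1 / 2) ^ (n + m) / 2 := by
        rw [pow_succ]
        ring
      rw [e1, e2]
      have h3 : (0 : ℝ) < (1 / 2) ^ (n + m) := by positivity
      nlinarith
  refine ⟨mul_le_of_le_one_right h0.le (Finset.prod_le_one (fun i _ => (hpos _).le)
    fun i _ => hle _), mul_le_mul_of_nonneg_left ?_ h0.le⟩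
  have h1 := key n
  have h2 : (0 : ℝ) < (1 / 2) ^ (n + n) := by positivity
  linarith

theorem bet_tendsto : Tendsto (fun n : ℕ => ∏ i ∈ range n, (1 - (1 / 2 : ℝ) ^ (2 * i + 1))) atTop
    (𝓝 bet) := by
  have hs : Summable fun i : ℕ => ‖-((1 / 2 : ℝ) ^ (2 * i + 1))‖ := by
    have h1 : ∀ i : ℕ, ‖-((1 / 2 : ℝ) ^ (2 * i + 1))‖ = (1 / 2) * (1 / 4) ^ i := by
      intro i
      rw [norm_neg, norm_pow, Real.norm_eq_abs, abs_of_pos (by norm_num), pow_succ, pow_mul]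
      norm_num
      ring
    simp only [h1]
    exact (summable_geometric_of_lt_one (by norm_num) (by norm_num)).mul_left _
  have hm : Multipliable fun i : ℕ => 1 + -((1 / 2 : ℝ) ^ (2 * i + 1)) :=
    multipliable_one_add_of_summable hs
  have h1 := hm.hasProd.tendsto_prod_nat
  exact h1

/-- the sum of the weights -/
theorem sum_ce : bet * Fe 1 = 1 := by
  have hh : Tendsto (fun n : ℕ => (1 / 2 : ℝ) ^ n) atTop (𝓝 0) :=
    tendsto_pow_atTop_nhds_zero_of_lt_one (by norm_num) (by norm_num)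
  have hPl := bet_tendsto
  have hPQ : Tendsto (fun n => (∏ i ∈ range n, (1 - (1 / 2 : ℝ) ^ (2 * i + 1))) *
      (∏ i ∈ range n, (1 + (1 / 2 : ℝ) ^ (i + 1)))) atTop (𝓝 1) := by
    have hpos : ∀ n, 0 < ∏ i ∈ range n, (1 - (1 / 2 : ℝ) ^ (i + 1)) := fun n =>
      Finset.prod_pos fun i _ => by
        have : (1 / 2 : ℝ) ^ (i + 1) < 1 := pow_lt_one₀ (by norm_num) (by norm_num) (by omega)
        linarith
    refine tendsto_of_tendsto_of_tendsto_of_le_of_le (g := fun n : ℕ => 1 - (1 / 2 : ℝ) ^ n)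
      (h := fun _ => 1) ?_ tendsto_const_nhds (fun n => ?_) (fun n => ?_)
    · simpa using hh.const_sub 1
    · obtain ⟨-, h2⟩ := prod_up n
      rw [← prod_fin, mul_comm] at h2
      exact le_of_mul_le_mul_right h2 (hpos n)
    · obtain ⟨h1, -⟩ := prod_up n
      rw [← prod_fin] at h1
      exact (mul_le_iff_le_one_left (hpos n)).1 h1
  have hF : Tendsto (fun n : ℕ => Fe ((1 / 2) ^ n)) atTop (𝓝 1) := by
    rw [tendsto_iff_norm_sub_tendsto_zero]
    have hg : Tendsto (fun n : ℕ => 2 * (1 / 2 : ℝ) ^ n) atTop (𝓝 0) := by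
      simpa using hh.const_mul 2
    refine squeeze_zero (fun n => norm_nonneg _) (fun n => ?_) hg
    exact Fe_near (x := (1 / 2) ^ n) (by positivity) (pow_le_one₀ (by norm_num) (by norm_num))
  have h1 : Tendsto (fun n => (∏ i ∈ range n, (1 - (1 / 2 : ℝ) ^ (2 * i + 1))) * Fe 1) atTop
      (𝓝 (bet * Fe 1)) := hPl.mul_const _
  have h2 : Tendsto (fun n => (∏ i ∈ range n, (1 - (1 / 2 : ℝ) ^ (2 * i + 1))) * Fe 1) atTop
      (𝓝 (1 * 1)) := by
    refine (hPQ.mul hF).congr fun n => ?_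
    rw [Fe_prod n, mul_assoc]
  rw [one_mul] at h2
  exact tendsto_nhds_unique h1 h2

theorem hasSum_ce : HasSum (fun e => bet * ce e) 1 := by
  have h1 : Summable ce := by
    have := summ (x := 1) zero_le_one le_rfl
    simpa using this
  have h2 : Fe 1 = ∑' r, ce r := by
    unfold Fe
    simp
  rw [← sum_ce, h2]
  exact h1.hasSum.mul_left bet

theorem lam2_eq (e : ℕ) : lam2 e = 2 ^ e * ce e := by
  rw [lam2, aj, Ge, ce]
  push_cast
  rw [Pool.Agent.Y164.SZ.den_eq]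
  have h1 : (2 : ℝ) ^ (e * (e + 1) / 2) = 2 ^ e * 2 ^ (e * (e - 1) / 2) := by
    rw [← pow_add]
    congr 1
    cases e with
    | zero => rfl
    | succ n =>
      have h2 : (n + 1) * (n + 1 + 1) = (n + 1) * n + (n + 1) * 2 := by ring
      rw [h2, Nat.add_mul_div_right _ _ (by norm_num), Nat.add_sub_cancel]
      ring
  have h3 : (0 : ℝ) < ∏ i ∈ range e, ((2 : ℝ) ^ (i + 1) - 1) :=
    prod_pos fun i _ => lt_of_lt_of_le one_pos (one_le_pm i)
  rw [h1]
  have h4 : (0 : ℝ) < 2 ^ (e * (e - 1) / 2) := by positivity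
  field_simp

theorem law2_eq (e : ℕ) : law2 e = bet / 2 * (2 ^ e / ∏ i ∈ range e, ((2 : ℝ) ^ (i + 1) - 1)) := by
  rw [law2, lam2_eq, ce]
  ring

/-- **the law is a probability distribution** -/
theorem hasSum_law : HasSum law2 1 := by
  have h1 := hasSum_ce
  have h2 : HasSum (fun e => bet * (ce (e + 1) * (2 ^ (e + 1) - 1))) 1 := by
    simp only [ce_succ]
    exact h1
  have h3 : HasSum (fun e => bet * (ce e * (2 ^ e - 1))) 1 := by
    rw [← hasSum_nat_add_iff' 1]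
    simp only [range_one, sum_singleton, pow_zero, sub_self, mul_zero, sub_zero]
    exact h2
  have h4 := (h1.add h3).mul_left (1 / 2)
  have h5 : (fun e => (1 / 2 : ℝ) * (bet * ce e + bet * (ce e * (2 ^ e - 1)))) = law2 := by
    funext e
    rw [law2, lam2_eq]
    ring
  have h6 : (1 / 2 : ℝ) * (1 + 1) = 1 := by norm_num
  rw [h5, h6] at h4
  exact h4

end Pool.Agent.Q269.SL
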