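import Pool.Agent.Q269.SL.Co
import Pool.Agent.Q269.MF.Tf
import Pool.Agent.Q269.MF.Tc

/-!
# The prime `2`: parity of the dimension of the kernel and bounds in the classes
-/

set_option autoImplicit false
set_option linter.all false

namespace Pool.Agent.Q269.SL

open Finset Filter Topology
open Pool.Agent.Q269.MF
open Pool.Agent.Y164.HG (F2 Symp kc)
open Pool.Agent.Y164.SZ (FDat KerP kLI kLI_eq AS)
open scoped Classical

section par
variable {W : Type} [AddCommGroup W] [Module F2 W] [Symp W]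
variable {ι τ : Type} [Fintype ι] [Fintype τ]
variable (D : Pool.Agent.Y164.HG.Dat W τ) {A : ι → ι → F2} (B : ι → τ → F2) (d : ι → F2)

theorem cast_eq_of {x y a b : ℕ} (h : x + 2 * a = 2 * b + y) : (x : F2) = (y : F2) := by
  have h1 := congrArg (Nat.cast : ℕ → F2) h
  push_cast at h1
  have h2 : (2 : F2) = 0 := by decide
  rw [h2, zero_mul, zero_mul, add_zero, zero_add] at h1
  exact h1

/-- the order of the kernel is a power of `2` with exponent of known parity -/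
theorem kc_parity [Finite W] (hA : ∀ i j, A i j = A j i) (hN : ∑ i, d i + D.N = 1) :
    ∃ r : ℕ, kc D A B d = 2 ^ r ∧ (r : F2) = (Fintype.card τ : F2) + ∑ s, D.sp s := by
  obtain ⟨a, b, h⟩ := kc_par D B d hA hN
  have h4 : (4 : ℕ) = 2 ^ 2 := by norm_num
  rw [h4, ← pow_mul, ← pow_mul, ← pow_add] at h
  have h1 : kc D A B d ∣ 2 ^ (2 * b + Fintype.card τ) :=
    ⟨(if ∑ s, D.sp s = 0 then 1 else 2) * 2 ^ (2 * a), by rw [← h]; ring⟩
  obtain ⟨r, hr, h2⟩ := (Nat.dvd_prime_pow Nat.prime_two).1 h1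
  refine ⟨r, h2, ?_⟩
  rw [h2] at h
  rcases F2_cases (∑ s, D.sp s) with h0 | h0
  · rw [if_pos h0, mul_one, ← pow_add] at h
    have h3 := Nat.pow_right_injective le_rfl h
    rw [h0, add_zero]
    exact cast_eq_of h3
  · have hne : ∑ s, D.sp s ≠ 0 := by rw [h0]; decide
    rw [if_neg hne, ← pow_succ, ← pow_add] at h
    have h3 := Nat.pow_right_injective le_rfl h
    rw [h0]
    have h5 := cast_eq_of h3
    push_cast at h5
    have h6 : ∀ x y : F2, x + 1 = y → x = y + 1 := by decide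
    exact h6 _ _ h5

end par

/-- the coefficients for the trivial kernel -/
theorem two_coef {K : ℕ} (hK : Odd K) : ∃ l u : ℕ → ℝ,
    ∑ j ∈ range (K + 1 + 1), l j * aj j = gK K ∧
    ∑ j ∈ range (K + 1 + 1), u j * aj j = gK (K + 1) ∧
    ∀ s : ℕ, Even s → evc 2 (K + 1) l s ≤ (if s = 0 then (1 : ℝ) else 0) ∧
      (if s = 0 then (1 : ℝ) else 0) ≤ evc 2 (K + 1) u s := by
  obtain ⟨l, hl1, hl2⟩ := exp_val (K + 1) (fK K) ((fK_deg K).trans (Nat.le_succ K))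
  obtain ⟨u, hu1, hu2⟩ := exp_val (K + 1) (fK (K + 1)) (fK_deg (K + 1))
  refine ⟨l, u, by rw [hl2, Lf_fK], by rw [hu2, Lf_fK], ?_⟩
  rintro s ⟨e, rfl⟩
  have h4 : ((2 : ℕ) : ℝ) ^ (e + e) = 4 ^ e := by
    rw [← two_mul, pow_mul]
    norm_num
  have h1 : ∀ v : ℕ → ℝ, evc 2 (K + 1) v (e + e) =
      ∑ j ∈ range (K + 1 + 1), v j * ∏ i ∈ range j, ((4 : ℝ) ^ e - (2 : ℝ) ^ i) := by
    intro v
    rw [evc]
    refine sum_congr rfl fun j _ => ?_
    rw [h4]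
    push_cast
    rfl
  have h2 : (if e + e = 0 then (1 : ℝ) else 0) = if e = 0 then (1 : ℝ) else 0 := by
    have : e + e = 0 ↔ e = 0 := by omega
    simp only [this]
  rw [h1, h1, hl1, hu1, h2, fK_eval, fK_eval]
  have b1 := Pool.Agent.Y164.SZ.bon (show (1 : ℝ) < 4 by norm_num) hK e
  have b2 := bon_up (show (1 : ℝ) < 4 by norm_num) hK.add_one e
  rw [Pool.Agent.Y164.SZ.bon_id (show (1 : ℝ) < 4 by norm_num)] at b1 b2
  exact ⟨b1, b2⟩

/-- the weight of `e` -/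
noncomputable def lam2 (e : ℕ) : ℝ := aj e / Ge 2 e

theorem aj_add (e j : ℕ) : aj (e + j) = aj e * aj j * ((2 : ℕ) : ℝ) ^ (e * j) := by
  rw [aj, aj, aj]
  push_cast
  rw [← pow_add, ← pow_add]
  congr 1
  have h1 : (e + j) * (e + j + 1) = e * (e + 1) + j * (j + 1) + 2 * (e * j) := by ring
  rw [h1]
  have h2 := Nat.even_mul_succ_self e
  have h3 := Nat.even_mul_succ_self j
  obtain ⟨a, ha⟩ := h2
  obtain ⟨b, hb⟩ := h3
  rw [ha, hb]
  omega

/-- the coefficients in a class -/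
noncomputable def cf2 (K e : ℕ) (v : ℕ → ℝ) (p : Prop) : ℕ → ℝ :=
  if p then shc 2 (K + 1) e v else fun _ => 0

theorem sum_cf2 {K e K' : ℕ} {v : ℕ → ℝ} {X : ℝ} (h : K + 1 + e ≤ K')
    (hv : ∑ j ∈ range (K + 1 + 1), v j * aj j = X) (p : Prop) :
    ∑ j ∈ range (K' + 1), cf2 K e v p j * ((AS 2 j).card : ℝ) = if p then lam2 e * X else 0 := by
  unfold cf2
  by_cases hp : p
  · rw [if_pos hp, if_pos hp]
    have h1 := mom_shc (le_refl 2) (K + 1) e v aj h (aj_add e)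
    rw [hv] at h1
    rw [lam2, ← h1]
    exact sum_congr rfl fun j _ => by rw [card_AS_two]
  · rw [if_neg hp, if_neg hp]
    simp only [zero_mul, sum_const_zero]

section san
variable {W τ : Type} [AddCommGroup W] [Module F2 W] [Symp W] [Fintype W] [Fintype τ]

/-- the bounds in a class -/
theorem sanN_cls {K K' e : ℕ} {l u : ℕ → ℝ}
    (hlu : ∀ s : ℕ, Even s → evc 2 (K + 1) l s ≤ (if s = 0 then (1 : ℝ) else 0) ∧
      (if s = 0 then (1 : ℝ) else 0) ≤ evc 2 (K + 1) u s) (h : K + 1 + e ≤ K')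
    (D : Pool.Agent.Y164.HG.Dat W τ) (p : Prop)
    (hp : p ↔ (e : ZMod 2) = (Fintype.card τ : ZMod 2) + ∑ s, D.sp s) :
    SanN e (cf2 K e l p) (cf2 K e u p) K' (tF D) := by
  unfold cf2
  by_cases h1 : p
  · rw [if_pos h1, if_pos h1]
    apply sanN_of (tF D) Even hlu _ h
    intro ι _ A B d hA hN
    rw [ker_kc]
    obtain ⟨r, hr, hr2⟩ := kc_parity D B d hA (isUnit_two hN)
    refine ⟨r, hr, fun her => ?_⟩
    have h2 : (r : ZMod 2) = (e : ZMod 2) := by rw [hr2, hp.1 h1]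
    rw [← ZMod.natCast_eq_zero_iff_even, Nat.cast_sub her, h2, sub_self]
  · rw [if_neg h1, if_neg h1]
    apply sanN_zero
    intro ι _ A B d hA hN h2
    obtain ⟨r, hr, hr2⟩ := kc_parity D B d hA (isUnit_two hN)
    apply h1
    rw [hp, ← hr2]
    unfold TrN at h2
    rw [ker_kc, hr] at h2
    rw [Nat.pow_right_injective le_rfl h2]

end san

section law
variable {R : Type} [Fintype R] [DecidableEq R]

/-- the constants attached to upper and lower bounds -/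
noncomputable def cP (U Lo : R → ℝ) : ℝ :=
  ∏ r, U r - ∑ r, (U r - Lo r) * ∏ r' ∈ univ.erase r, U r'

theorem cP_tendsto {U Lo : ℕ → R → ℝ} {c : R → ℝ} (hU : ∀ r, Tendsto (fun K => U K r) atTop (𝓝 (c r)))
    (hL : ∀ r, Tendsto (fun K => Lo K r) atTop (𝓝 (c r))) :
    Tendsto (fun K => cP (U K) (Lo K)) atTop (𝓝 (∏ r, c r)) := by
  have e3 := (tendsto_finsetProd (univ : Finset R) fun r _ => hU r).sub
    (tendsto_finsetSum (univ : Finset R) fun r _ => ((hU r).sub (hL r)).mul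
      (tendsto_finsetProd (univ.erase r) fun r' _ => hU r'))
  have e4 : ∏ r : R, c r - ∑ r : R, (c r - c r) * ∏ r' ∈ univ.erase r, c r' = ∏ r : R, c r := by
    simp only [sub_self, zero_mul, sum_const_zero, sub_zero]
  rw [e4] at e3
  exact e3

/-- the parity condition -/
def parx {τ : R → Type} [∀ r, Fintype (τ r)] (e : R → ℕ) (σ : (Σ r, τ r) → ZMod 2) (r : R) :
    Prop := (e r : ZMod 2) = (Fintype.card (τ r) : ZMod 2) + ∑ s, σ ⟨r, s⟩

/-- one factor -/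
noncomputable def u2 (x : ℝ) (e : ℕ) (p : Prop) : ℝ := if p then lam2 e * x else 0

theorem cUL_x {K K' : ℕ} {l u : ℕ → ℝ} (e : R → ℕ) (h : ∀ r, K + 1 + e r ≤ K')
    (hl : ∑ j ∈ range (K + 1 + 1), l j * aj j = gK K)
    (hu : ∑ j ∈ range (K + 1 + 1), u j * aj j = gK (K + 1)) (P : R → Prop) :
    cUL 2 K' (fun r => cf2 K (e r) l (P r)) (fun r => cf2 K (e r) u (P r)) =
      cP (fun r => u2 (gK (K + 1)) (e r) (P r)) (fun r => u2 (gK K) (e r) (P r)) := by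
  rw [cUL, cP]
  simp only [fun r => sum_cf2 (h r) hl (P r), fun r => sum_cf2 (h r) hu (P r)]
  rfl

/-- the law of the dimension of the kernel -/
noncomputable def law2 (e : ℕ) : ℝ := lam2 e * (bet / 2)

theorem u2_avg (e : ℕ) (c : ZMod 2) :
    (u2 bet e ((e : ZMod 2) = c + 0) + u2 bet e ((e : ZMod 2) = c + 1)) / 2 = law2 e := by
  rw [u2, u2, law2]
  have key : ∀ x y : ZMod 2, (x = y + 0 ∧ ¬ (x = y + 1)) ∨ (¬ (x = y + 0) ∧ x = y + 1) := by decide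
  rcases key (e : ZMod 2) c with ⟨h1, h2⟩ | ⟨h1, h2⟩
  · rw [if_pos h1, if_neg h2]
    ring
  · rw [if_neg h1, if_pos h2]
    ring

theorem avg_law {τ : R → Type} [∀ r, Fintype (τ r)] [∀ r, Nonempty (τ r)] (e : R → ℕ) :
    (∑ σ : (Σ r, τ r) → ZMod 2, ∏ r, u2 bet (e r) (parx e σ r)) /
      (2 : ℝ) ^ Fintype.card (Σ r, τ r) = ∏ r, law2 (e r) := by
  have h := avg_prod (τ := τ) fun r x =>
    u2 bet (e r) ((e r : ZMod 2) = (Fintype.card (τ r) : ZMod 2) + x)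
  have h2 : ∏ r : R, ((u2 bet (e r) ((e r : ZMod 2) = (Fintype.card (τ r) : ZMod 2) + 0) +
      u2 bet (e r) ((e r : ZMod 2) = (Fintype.card (τ r) : ZMod 2) + 1)) / 2) = ∏ r, law2 (e r) :=
    prod_congr rfl fun r _ => u2_avg _ _
  rw [← h2, ← h]
  rfl

/-- the constants in the classes -/
noncomputable def cX (K : ℕ) (e : R → ℕ) (P : R → Prop) : ℝ :=
  cP (fun r => u2 (gK (K + 1)) (e r) (P r)) (fun r => u2 (gK K) (e r) (P r))

theorem u2_tendsto {x : ℕ → ℝ} {b : ℝ} (hx : Tendsto x atTop (𝓝 b)) (e : ℕ) (p : Prop) :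
    Tendsto (fun K => u2 (x K) e p) atTop (𝓝 (u2 b e p)) := by
  unfold u2
  by_cases h1 : p
  · simp only [if_pos h1]
    exact hx.const_mul _
  · simp only [if_neg h1]
    exact tendsto_const_nhds

theorem avx_tendsto {τ : R → Type} [∀ r, Fintype (τ r)] [∀ r, Nonempty (τ r)]
    (𝒜 : Finset (R → ℕ)) :
    Tendsto (fun K => avS (fun σ : (Σ r, τ r) → ZMod 2 => ∑ e ∈ 𝒜, cX K e (parx e σ))) atTop
      (𝓝 (∑ e ∈ 𝒜, ∏ r, law2 (e r))) := by
  have hg := gK_tendsto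
  have hg' : Tendsto (fun K => gK (K + 1)) atTop (𝓝 bet) := hg.comp (tendsto_add_atTop_nat 1)
  have h1 : Tendsto (fun K => (∑ σ : (Σ r, τ r) → ZMod 2, ∑ e ∈ 𝒜, cX K e (parx e σ)) /
      (2 : ℝ) ^ Fintype.card (Σ r, τ r)) atTop
      (𝓝 ((∑ σ : (Σ r, τ r) → ZMod 2, ∑ e ∈ 𝒜, ∏ r, u2 bet (e r) (parx e σ r)) /
        (2 : ℝ) ^ Fintype.card (Σ r, τ r))) := by
    apply Tendsto.div_const
    apply tendsto_finsetSum
    intro σ _
    apply tendsto_finsetSum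
    intro e _
    exact cP_tendsto (fun r => u2_tendsto hg' _ _) (fun r => u2_tendsto hg _ _)
  have h2 : (∑ σ : (Σ r, τ r) → ZMod 2, ∑ e ∈ 𝒜, ∏ r, u2 bet (e r) (parx e σ r)) /
      (2 : ℝ) ^ Fintype.card (Σ r, τ r) = ∑ e ∈ 𝒜, ∏ r, law2 (e r) := by
    rw [sum_comm, sum_div]
    exact sum_congr rfl fun e _ => avg_law e
  rw [h2] at h1
  simp only [avS_sigma]
  exact h1

theorem avx_ex {τ : R → Type} [∀ r, Fintype (τ r)] [∀ r, Nonempty (τ r)]
    (𝒜 : Finset (R → ℕ)) {ε : ℝ} (hε : 0 < ε) : ∃ K : ℕ, Odd K ∧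
      ∑ e ∈ 𝒜, ∏ r, law2 (e r) - ε ≤
      avS (fun σ : (Σ r, τ r) → ZMod 2 => ∑ e ∈ 𝒜, cX K e (parx e σ)) := by
  obtain ⟨K0, hK0⟩ := eventually_atTop.1 ((avx_tendsto (τ := τ) 𝒜).eventually_const_le
    (show ∑ e ∈ 𝒜, ∏ r, law2 (e r) - ε < ∑ e ∈ 𝒜, ∏ r, law2 (e r) by linarith))
  exact ⟨2 * K0 + 1, ⟨K0, rfl⟩, hK0 _ (by omega)⟩

end law

end Pool.Agent.Q269.SL
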