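import Pool.Agent.Q269.SL.Rep

/-!
# The number of the Selmer classes modulo the torsion points is at most the order of the kernel
-/

set_option autoImplicit false
set_option linter.all false

open Polynomial IsDedekindDomain
open scoped Classical

namespace Pool.Agent.Q269.SL

open Finset
open Pool.Agent.Y164.HG
open Pool.Agent.Y713.SE (hp Pw cl)
open Pool.Agent.Y713.SE.Dat (au)
open Pool.Agent.Y164.PS (L ch el Fam)

section abs
variable {W : Type} [AddCommGroup W] [Module F2 W] [Symp W]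
variable {ι τ : Type} [Fintype ι] [Fintype τ] (D : Dat W τ) {A : ι → ι → F2} (B : ι → τ → F2)
  (d : ι → F2)

theorem dg_TT' (hN : ∑ i, d i + D.N = 1) (y : W) : dg D d (TT D y) = y := by
  rw [dg_TT, hN, one_smul]

/-- the form at the vector corrected by a torsion vector -/
theorem FF_corr (hcl : ∀ s, D.sp s + ∑ i, B i s + D.g s = 0) (w : V W ι τ) (x0 : W)
    (h1 : ∀ i, E1 (A := A) D B d w x0 i = 0) (h2 : ∀ s, E2 (ι := ι) D B w x0 s = 0) (y : W)
    (w' : V W ι τ) : FF D A B d (w + TT D y) w' = om (x0 + D.ks y) (dg D d w') := by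
  have k1 : ∀ i, E1 (A := A) D B d (w + TT D y) (x0 + D.ks y) i = 0 := fun i => by
    rw [E1_add, h1, E1_TT, add_zero]
  have k2 : ∀ s, E2 (ι := ι) D B (w + TT D y) (x0 + D.ks y) s = 0 := fun s => by
    rw [E2_add, h2, E2_TT D B hcl, add_zero]
  exact FF_eq D B d _ _ k1 k2 w'

theorem V_add_self (w : V W ι τ) : w + w = 0 := by
  apply Prod.ext
  · funext i
    exact W_add_self _
  · funext s
    exact F2_add_self _

theorem dg_corr (hN : ∑ i, d i + D.N = 1) (w : V W ι τ) :
    dg D d (w + TT D (dg D d w)) = 0 := by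
  rw [dg_add, dg_TT' D d hN, W_add_self]

/-- two vectors with the same image in the kernel differ by a torsion vector -/
theorem corr_eq (hcl : ∀ s, D.sp s + ∑ i, B i s + D.g s = 0) (hN : ∑ i, d i + D.N = 1)
    {w w' : V W ι τ} {x0 x0' : W}
    (h1 : ∀ i, E1 (A := A) D B d w x0 i = 0) (h2 : ∀ s, E2 (ι := ι) D B w x0 s = 0)
    (h1' : ∀ i, E1 (A := A) D B d w' x0' i = 0) (h2' : ∀ s, E2 (ι := ι) D B w' x0' s = 0)
    (he : w + TT D (dg D d w) = w' + TT D (dg D d w')) :
    w + w' = TT D (dg D d w + dg D d w') ∧ x0 + x0' = D.ks (dg D d w + dg D d w') := by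
  have hT : ∀ y y' : W, (TT D y : V W ι τ) + TT D y' = TT D (y + y') := by
    intro y y'
    apply Prod.ext
    · funext i
      rfl
    · funext s
      exact (om_add_left _ _ _).symm
  constructor
  · rw [← hT]
    calc w + w' = (w + TT D (dg D d w)) + TT D (dg D d w) + w' := by
          rw [add_assoc w, V_add_self, add_zero]
      _ = (w' + TT D (dg D d w')) + TT D (dg D d w) + w' := by rw [he]
      _ = (w' + w') + (TT D (dg D d w) + TT D (dg D d w')) := by abel
      _ = _ := by rw [V_add_self, zero_add]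
  · have h3 : ∀ z : W, om (x0 + D.ks (dg D d w)) z = om (x0' + D.ks (dg D d w')) z := by
      intro z
      have e1 := FF_corr D B d hcl w x0 h1 h2 (dg D d w) (TT D z)
      have e2 := FF_corr D B d hcl w' x0' h1' h2' (dg D d w') (TT D z)
      rw [dg_TT' D d hN] at e1 e2
      rw [← e1, ← e2, he]
    have h4 : x0 + D.ks (dg D d w) = x0' + D.ks (dg D d w') := by
      have h5 : (x0 + D.ks (dg D d w)) + (x0' + D.ks (dg D d w')) = 0 := by
        apply eq_zero_of_om
        intro z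
        rw [om_add_left, h3 z, F2_add_self]
      calc x0 + D.ks (dg D d w) = (x0 + D.ks (dg D d w)) +
            ((x0' + D.ks (dg D d w')) + (x0' + D.ks (dg D d w'))) := by rw [W_add_self, add_zero]
        _ = _ := by rw [← add_assoc, h5, zero_add]
    rw [D.ks_add]
    calc x0 + x0' = (x0 + D.ks (dg D d w)) + D.ks (dg D d w) + x0' := by
          rw [add_assoc x0, W_add_self, add_zero]
      _ = (x0' + D.ks (dg D d w')) + D.ks (dg D d w) + x0' := by rw [h4]
      _ = (x0' + x0') + (D.ks (dg D d w) + D.ks (dg D d w')) := by abel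
      _ = _ := by rw [W_add_self, zero_add]

end abs

section
variable {k K : Type} [Field k] [Fintype k] [DecidableEq k] [Field K] [Algebra k[X] K]
  [IsFractionRing k[X] K]
variable {n : ℕ} {a : Fin n → k[X]} {N : ℕ} (H : Geo a N)
variable {ι : Type} [Fintype ι] {T : ι → k[X]}

theorem cl_PT_add {F : Type} [Field F] (D : Pool.Agent.Y713.SE.Dat 2 n F) (m m' : Fin n → ℕ) :
    cl (D.PT (fun i => m i + m' i)) = cl (D.PT m) * cl (D.PT m') := by
  rw [D.cl_PT, D.cl_PT, D.cl_PT]
  simp only [pow_add, Finset.prod_mul_distrib]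

theorem coc_add {E : Type} [Field E] [Algebra K E] {D0 : Pool.Agent.Y713.SE.Dat 2 n K}
    {χ χ' : (E ≃ₐ[K] E) → Fin n → ℕ} (hc : D0.Coc (fun τ => cl ((D0.base E).PT (χ τ))))
    (hc' : D0.Coc (fun τ => cl ((D0.base E).PT (χ' τ)))) :
    D0.Coc (fun τ => cl ((D0.base E).PT (fun i => χ τ i + χ' τ i))) := by
  have he : (fun τ => cl ((D0.base E).PT (fun i => χ τ i + χ' τ i))) =
      fun τ => cl ((D0.base E).PT (χ τ)) * cl ((D0.base E).PT (χ' τ)) :=
    funext fun τ => cl_PT_add _ _ _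
  rw [he]
  refine ⟨hc.1.comp₂ hc'.1 (fun a b => a * b), fun σ τ => ?_⟩
  show cl ((D0.base E).PT (χ (σ * τ))) * cl ((D0.base E).PT (χ' (σ * τ))) = _
  have h1 := hc.2 σ τ
  have h2 := hc'.2 σ τ
  simp only at h1 h2
  rw [h1, h2, map_mul]
  exact mul_mul_mul_comm _ _ _ _

include H in
/-- the pigeonhole principle for the classes -/
theorem crit_pig (hREP : S_REP) (hADJ : S_ADJ) (hR : Fam (RR a T)) [Fact (Odd n)]
    (D0 : Pool.Agent.Y713.SE.Dat 2 n K)
    (hδ : D0.δ = algebraMap k[X] K (∏ i, T i)) (he : ∀ i, D0.e i = algebraMap k[X] K (a i))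
    (σ : Tau a → F2) (hcl : ∀ s, σ s + ∑ i, BT (QQ a) T i s + H.comb.gg s = 0)
    (hpar : ∑ i, ((T i).natDegree : F2) + (N : F2) = 1)
    {E : Type} [Field E] [Algebra K E] [IsGalois K E] [IsSepClosed E] {p : ℕ} [ExpChar E p]
    (Ω : HeightOneSpectrum k[X] → Type) [∀ v, Field (Ω v)]
    [∀ v, Algebra (v.adicCompletion K) (Ω v)] [∀ v, Algebra K (Ω v)]
    [∀ v, IsScalarTower K (v.adicCompletion K) (Ω v)] [∀ v, IsSepClosed (Ω v)]
    [∀ v, IsGalois (v.adicCompletion K) (Ω v)] [∀ v, ExpChar (Ω v) p]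
    {I : Type} [Fintype I] (χ : I → (E ≃ₐ[K] E) → Fin n → ℕ)
    (hc : ∀ i, D0.Coc (fun τ => cl ((D0.base E).PT (χ i τ))))
    (ht : ∀ i, ∀ v, D0.Triv (v.adicCompletion K) (Ω v) (fun τ => cl ((D0.base E).PT (χ i τ))))
    (hcard : kc (H.dat σ) (AT T) (BT (QQ a) T) (fun i => ((T i).natDegree : F2)) <
      Fintype.card I) :
    ∃ i j, i ≠ j ∧ ∃ (m : Fin n → ℕ) (Q : ClassGroup (D0.base E).A),
      cl ((D0.base E).PT m) * (D0.base E).sC Q = Q ∧
      ∀ τ, cl ((D0.base E).PT (χ i τ)) * cl ((D0.base E).PT (χ j τ)) = D0.mC (au τ) Q / Q := by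
  have h0 := fun i => crit_rep (p := p) H hREP hADJ hR D0 hδ he σ hcl Ω (χ i) (hc i) (ht i)
  choose w x0 hrep h1 h2 using h0
  let f : I → {w : V (EW n) ι (Tau a) // dg (H.dat σ) (fun i => ((T i).natDegree : F2)) w = 0 ∧
      ∀ w', dg (H.dat σ) (fun i => ((T i).natDegree : F2)) w' = 0 →
        FF (H.dat σ) (AT T) (BT (QQ a) T) (fun i => ((T i).natDegree : F2)) w w' = 0} := fun i =>
    ⟨w i + TT (H.dat σ) (dg (H.dat σ) (fun i => ((T i).natDegree : F2)) (w i)),
      dg_corr _ _ hpar _, fun w' hw' => by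
        rw [FF_corr (H.dat σ) _ _ hcl (w i) (x0 i) (h1 i) (h2 i), hw', om_zero_right]⟩
  obtain ⟨i, j, hij, hf⟩ : ∃ i j, i ≠ j ∧ f i = f j := by
    by_contra hno
    push Not at hno
    have hinj : Function.Injective f := by
      intro i j h
      by_contra hne
      exact hno i j hne h
    have h3 := Nat.card_le_card_of_injective f hinj
    rw [Nat.card_eq_fintype_card] at h3
    have h4 : Nat.card {w : V (EW n) ι (Tau a) //
      dg (H.dat σ) (fun i => ((T i).natDegree : F2)) w = 0 ∧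
      ∀ w', dg (H.dat σ) (fun i => ((T i).natDegree : F2)) w' = 0 →
        FF (H.dat σ) (AT T) (BT (QQ a) T) (fun i => ((T i).natDegree : F2)) w w' = 0} =
      kc (H.dat σ) (AT T) (BT (QQ a) T) (fun i => ((T i).natDegree : F2)) := rfl
    omega
  have h5 := congrArg Subtype.val hf
  obtain ⟨e1, e2⟩ := corr_eq (H.dat σ) _ _ hcl hpar (h1 i) (h2 i) (h1 j) (h2 j) h5
  obtain ⟨m, Q, hQ, hQ'⟩ := RepV.glob H hREP hADJ hR D0 hδ he σ (p := p) (coc_add (hc i) (hc j))
    ((hrep i).mul H (hrep j)) _ e1 e2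
  exact ⟨i, j, hij, m, Q, hQ, fun τ => by rw [← cl_PT_add]; exact hQ' τ⟩

end

end Pool.Agent.Q269.SL
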