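import Pool.Agent.Q269.SL.Pig
import Pool.Agent.Y164.HG.Rk

/-!
# The number of the points modulo torsion and squares times the number of the classes of order 2
-/

set_option autoImplicit false
set_option linter.all false

open Polynomial IsDedekindDomain

namespace Pool.Agent.Q269.SL

open Pool.Agent.Y164.HG
open Pool.Agent.Y713.SE (cl)
open Pool.Agent.Y713.SE.Dat (au phi_apply rs mC_mC mC_PT mC_phi)

section
variable {n : ℕ} {K : Type} [Field K] (D : Pool.Agent.Y713.SE.Dat 2 n K)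

theorem descend (hEXT : S_EXT) {E : Type} [Field E] [Algebra K E] [IsGalois K E]
    (R : ClassGroup (D.base E).A) (hR : ∀ σ : E ≃ₐ[K] E, D.mC (au σ) R = R) :
    ∃ y : ClassGroup (D.base K).A, D.mC (Algebra.ofId K E) y = R := by
  obtain ⟨B, hB, hBc, hBinv⟩ := D.exists_can R
  obtain ⟨I0, hI0⟩ := hEXT 2 n K D E B (fun σ => hBinv σ (hR σ))
  have hI0' : I0 ≠ ⊥ := by
    rintro rfl
    apply hB
    rw [← hI0]
    exact Ideal.map_bot
  exact ⟨cl I0, by rw [D.mC_cl _ hI0', hI0, hBc]⟩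

theorem grp5 {G : Type} [CommGroup G] (c : G) : c / c⁻¹ = c ^ 2 := by
  rw [div_inv_eq_mul, sq]

theorem phi_sq {F : Type} [Field F] (D : Pool.Agent.Y713.SE.Dat 2 n F) (c : ClassGroup D.A) :
    D.phi c = c ^ 2 := by
  rw [phi_apply, sC_inv]
  exact grp5 c

theorem exists_chi {E : Type} [Field E] [Algebra K E] [IsGalois K E] [IsSepClosed E] {p : ℕ}
    [ExpChar E p] {c : (E ≃ₐ[K] E) → ClassGroup (D.base E).A} {b : ClassGroup (D.base E).A}
    (hb : ∀ σ, c σ ^ 2 = D.mC (au σ) b / b) (x : ClassGroup (D.base K).A) :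
    ∃ (Q : ClassGroup (D.base E).A) (χ : (E ≃ₐ[K] E) → Fin n → ℕ),
      Q ^ 2 = b / D.mC (Algebra.ofId K E) x ∧
      ∀ σ, c σ / (D.mC (au σ) Q / Q) = cl ((D.base E).PT (χ σ)) := by
  obtain ⟨bx, hbx⟩ : ∃ bx, bx = D.mC (Algebra.ofId K E) x := ⟨_, rfl⟩
  have hinv : ∀ σ : E ≃ₐ[K] E, D.mC (au σ) bx = bx := by
    intro σ
    rw [hbx, mC_mC]
    congr 2
    exact Subsingleton.elim _ _
  obtain ⟨Q, hQ⟩ := (D.base E).phi_surj (p := p) (b / bx)
  have hQ2 : Q ^ 2 = b / bx := by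
    rw [sC_inv] at hQ
    exact sq_eq_of hQ
  have h3 : ∀ σ, ∃ m : Fin n → ℕ, c σ / (D.mC (au σ) Q / Q) = cl ((D.base E).PT m) := by
    intro σ
    have h4 : (D.base E).phi (c σ / (D.mC (au σ) Q / Q)) = 1 := by
      rw [phi_sq, div_pow, div_pow, ← map_pow, hb, hQ2, _root_.map_div, hinv]
      generalize D.mC (au σ) b = u
      rw [div_div_div_cancel_right, div_self']
    rw [phi_apply, div_eq_one] at h4
    obtain ⟨m', hm⟩ := (D.base E).phi_ker (p := p) h4.symm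
    exact ⟨m', by rw [hm, (D.base E).cl_PT]⟩
  choose χ hχ using h3
  exact ⟨Q, χ, by rw [hQ2, hbx], hχ⟩

theorem grp2 {G : Type} [CommGroup G] (P β u v : G) :
    P * (β / u) * (β / v) / β ^ 2 * (u * v) = P := by
  have h : ∀ p b x y : Additive G, p + (b - x) + (b - y) - 2 • b + (x + y) = p := by
    intro p b x y
    abel
  exact h (Additive.ofMul P) (Additive.ofMul β) (Additive.ofMul u) (Additive.ofMul v)

theorem grp3 {G : Type} [CommGroup G] {P y u v : G} (h : y ^ 2 * (u * v) = P) :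
    u = v * P * (v⁻¹ * y⁻¹) ^ 2 := by
  rw [← h]
  have h' : ∀ y u v : Additive G, u = v + (2 • y + (u + v)) + 2 • (-v + -y) := by
    intro y u v
    abel
  exact h' (Additive.ofMul y) (Additive.ofMul u) (Additive.ofMul v)

theorem grp4 {G : Type} [CommGroup G] (a b : G) : a / b = (a * b) / b ^ 2 := by
  rw [sq, mul_div_mul_right_eq_div]

theorem grp1 {G : Type} [CommGroup G] {c c' u v w q1 q2 q3 : G} (h : c / (u / q1) * (c' / (v / q2)) = w / q3) :
    c * c' = (w * u * v) / (q3 * q1 * q2) := by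
  have h1 : c * c' = (c / (u / q1) * (c' / (v / q2))) * ((u / q1) * (v / q2)) := by
    rw [div_mul_div_comm, div_mul_cancel]
  rw [h1, h]
  simp only [div_mul_div_comm, mul_assoc]

theorem sel_bound (hEXT : S_EXT) (hINJ : S_INJ) {E : Type} [Field E] [Algebra K E]
    [IsGalois K E] [IsSepClosed E] {p : ℕ} [ExpChar E p]
    (LT : ((E ≃ₐ[K] E) → ClassGroup (D.base E).A) → Prop)
    (hLT : ∀ c Q, LT c → LT (fun σ => c σ / (D.mC (au σ) Q / Q))) {M : ℕ}
    (pig : ∀ (I : Type) [Fintype I] (χ : I → (E ≃ₐ[K] E) → Fin n → ℕ),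
      (∀ i, D.Coc (fun σ => cl ((D.base E).PT (χ i σ)))) →
      (∀ i, LT (fun σ => cl ((D.base E).PT (χ i σ)))) → M < Fintype.card I →
      ∃ i j, i ≠ j ∧ ∃ (m : Fin n → ℕ) (Q : ClassGroup (D.base E).A),
        cl ((D.base E).PT m) * (D.base E).sC Q = Q ∧
        ∀ σ, cl ((D.base E).PT (χ i σ)) * cl ((D.base E).PT (χ j σ)) = D.mC (au σ) Q / Q)
    {A B : Type} [Fintype A] [Fintype B] (x : A → ClassGroup (D.base K).A)
    (hx : ∀ i j, i ≠ j → ¬ ∃ (m : Fin n → ℕ) (y : ClassGroup (D.base K).A),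
      x i = x j * cl ((D.base K).PT m) * y ^ 2)
    (c : B → (E ≃ₐ[K] E) → ClassGroup (D.base E).A) (hcc : ∀ j, D.Coc (c j))
    (hcl : ∀ j, LT (c j)) (hc2 : ∀ j, D.Cob (fun σ => c j σ ^ 2))
    (hne : ∀ i j, i ≠ j → ¬ D.Cob (fun σ => c i σ / c j σ)) :
    Fintype.card A * Fintype.card B ≤ M := by
  by_contra hlt
  rw [not_le, ← Fintype.card_prod] at hlt
  choose b hb using hc2
  have hb' : ∀ j σ, c j σ ^ 2 = D.mC (au σ) (b j) / b j := fun j σ => hb j σ
  have hch := fun ij : A × B => exists_chi D (p := p) (hb' ij.2) (x ij.1)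
  choose Q χ hQ hχ using hch
  obtain ⟨s, t, hst, m, Q', hQ', hQ''⟩ := pig (A × B) χ (fun ij => by
    have he : (fun σ => cl ((D.base E).PT (χ ij σ))) =
        fun σ => c ij.2 σ / (D.mC (au σ) (Q ij) / Q ij) := funext fun σ => (hχ ij σ).symm
    rw [he]
    exact (hcc ij.2).div D _) (fun ij => by
    have he : (fun σ => cl ((D.base E).PT (χ ij σ))) =
        fun σ => c ij.2 σ / (D.mC (au σ) (Q ij) / Q ij) := funext fun σ => (hχ ij σ).symm
    rw [he]
    exact hLT _ _ (hcl ij.2)) hlt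
  have hQ2 : Q' ^ 2 = cl ((D.base E).PT m) := by
    rw [sC_inv] at hQ'
    exact sq_eq_of hQ'
  have key : ∀ σ, c s.2 σ * c t.2 σ = D.mC (au σ) (Q' * Q s * Q t) / (Q' * Q s * Q t) := by
    intro σ
    have h1 := hQ'' σ
    rw [← hχ s σ, ← hχ t σ] at h1
    rw [grp1 h1, map_mul, map_mul]
  by_cases h2 : s.2 = t.2
  · have h1 : s.1 ≠ t.1 := fun h => hst (Prod.ext h h2)
    apply hx s.1 t.1 h1
    obtain ⟨R, hR⟩ : ∃ R, R = (Q' * Q s * Q t) / b t.2 := ⟨_, rfl⟩
    have hRinv : ∀ σ : E ≃ₐ[K] E, D.mC (au σ) R = R := by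
      intro σ
      have h3 := key σ
      rw [h2, ← sq, hb'] at h3
      rw [hR, _root_.map_div, div_eq_div_iff_mul_eq_mul, mul_comm]
      rw [div_eq_div_iff_mul_eq_mul] at h3
      rw [mul_comm, ← h3, mul_comm]
    obtain ⟨y, hy⟩ := descend D hEXT R hRinv
    have hR2 : R ^ 2 * (D.mC (Algebra.ofId K E) (x s.1) * D.mC (Algebra.ofId K E) (x t.1)) =
        cl ((D.base E).PT m) := by
      rw [hR, div_pow, mul_pow, mul_pow, hQ2, hQ, hQ, h2]
      exact grp2 _ _ _ _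
    have h4 : y ^ 2 * (x s.1 * x t.1) = cl ((D.base K).PT m) := by
      apply hINJ 2 n K D E
      rw [map_mul, map_mul, map_pow, hy, mC_PT]
      exact hR2
    refine ⟨m, (x t.1)⁻¹ * y⁻¹, ?_⟩
    exact grp3 h4
  · apply hne s.2 t.2 h2
    refine ⟨(Q' * Q s * Q t) / b t.2, fun σ => ?_⟩
    have h3 : c s.2 σ / c t.2 σ = (c s.2 σ * c t.2 σ) / (c t.2 σ ^ 2) := grp4 _ _
    show c s.2 σ / c t.2 σ = _
    rw [h3, key, hb', _root_.map_div, div_div_div_comm]

end

end Pool.Agent.Q269.SL
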