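import Pool.Agent.Q269.SL.Cl1

/-!
# The classes of twists and split multiplicative reduction
-/

set_option autoImplicit false
set_option linter.all false

namespace Pool.Agent.Q269.SL

open Finset Polynomial Filter Topology
open Pool.Agent.Q269.MF
open Pool.Agent.Y164.HG (Geo Tau QQ EW cur F2 kc Del)
open Pool.Agent.Y164.PS (Sf mem_Sf Fam L_eq_zero_iff L_mul_left coprime_of_not_dvd)
open Pool.Agent.Y164.SZ (nb)
open scoped Classical

section
variable {k : Type} [Field k] [Fintype k] [DecidableEq k]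

/-- the third index -/
theorem third {p q : Fin 3} (h : p ≠ q) : ∃ l : Fin 3, l ≠ p ∧ l ≠ q ∧ ∀ x, x ≠ p → x ≠ q → x = l := by
  revert p q
  decide

instance odd3 : Fact (Odd 3) := ⟨⟨1, rfl⟩⟩

variable {a : Fin 3 → k[X]} {N : ℕ} (H : Geo a N)

include H in
theorem g_eq (s : Tau a) {l : Fin 3} (h1 : l ≠ H.p s) (h2 : l ≠ H.q s) :
    (H.dat 0).g s = Pool.Agent.Y164.PS.L (a (H.p s) - a l) (QQ a s) := by
  obtain ⟨l', a1, a2, a3⟩ := third (ne_of_lt (H.lt s))
  have hl : l = l' := a3 l h1 h2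
  subst hl
  show ∑ x, (if x = H.p s ∨ x = H.q s then (0 : F2) else
    Pool.Agent.Y164.PS.L (a (H.p s) - a x) (QQ a s)) = _
  rw [sum_eq_single_of_mem l (mem_univ l)]
  · rw [if_neg (by rintro (h | h); exact h1 h; exact h2 h)]
  · intro x _ hx
    rw [if_pos]
    by_contra h
    push Not at h
    exact hx (a3 x h.1 h.2)

/-- splitness in terms of symbols -/
theorem split_iff (hchar : ringChar k ≠ 2) (s : Tau a) {D : k[X]} (hD : ¬ QQ a s ∣ D) :
    Pool.Agent.Y164.SZ.L 2 D (QQ a s) + (H.dat 0).g s = 0 ↔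
      ∃ i j l : Fin 3, i ≠ j ∧ l ≠ i ∧ l ≠ j ∧ QQ a s ∣ a i - a j ∧
        ∃ h : k[X], QQ a s ∣ h ^ 2 - D * (a i - a l) := by
  have hirr := H.fam.irr s
  have hmon := H.fam.mon s
  obtain ⟨l, h1, h2, h3⟩ := third (ne_of_lt (H.lt s))
  have hnd : ∀ i j : Fin 3, i ≠ j → (i = l ∨ j = l) → ¬ QQ a s ∣ a i - a j := by
    intro i j hij hl hd
    rcases (H.dvd_iff s hij).1 hd with ⟨e1, e2⟩ | ⟨e1, e2⟩
    · rcases hl with h | h
      · exact h1 (h.symm.trans e1.symm)
      · exact h2 (h.symm.trans e2.symm)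
    · rcases hl with h | h
      · exact h2 (h.symm.trans e2.symm)
      · exact h1 (h.symm.trans e1.symm)
  have hpl : ¬ QQ a s ∣ a (H.p s) - a l := hnd _ _ h1.symm (Or.inr rfl)
  have key : Pool.Agent.Y164.SZ.L 2 D (QQ a s) + (H.dat 0).g s =
      Pool.Agent.Y164.PS.L (D * (a (H.p s) - a l)) (QQ a s) := by
    rw [L_eq hchar, g_eq H s h1 h2]
    have hD0 : D ≠ 0 := fun h => hD (h ▸ dvd_zero _)
    have hp0 : a (H.p s) - a l ≠ 0 := fun h => hpl (h ▸ dvd_zero _)
    exact (L_mul_left hirr.ne_zero hD0 hp0 (coprime_of_not_dvd hirr hD)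
      (coprime_of_not_dvd hirr hpl)).symm
  have hnp : ¬ QQ a s ∣ D * (a (H.p s) - a l) := by
    intro h
    rcases hirr.prime.dvd_or_dvd h with h | h
    · exact hD h
    · exact hpl h
  rw [key, L_eq_zero_iff hchar hmon hirr hnp]
  constructor
  · rintro ⟨z, hz⟩
    exact ⟨H.p s, H.q s, l, ne_of_lt (H.lt s), h1, h2, H.dvd s, z, hz⟩
  · rintro ⟨i, j, l', hij, e1, e2, hd, z, hz⟩
    refine ⟨z, ?_⟩
    have hl' : l' = l := by
      rcases (H.dvd_iff s hij).1 hd with ⟨f1, f2⟩ | ⟨f1, f2⟩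
      · exact h3 l' (by rw [f1]; exact e1) (by rw [f2]; exact e2)
      · exact h3 l' (by rw [f1]; exact e2) (by rw [f2]; exact e1)
    rw [hl'] at hz
    rcases (H.dvd_iff s hij).1 hd with ⟨f1, f2⟩ | ⟨f1, f2⟩
    · rw [← f1] at hz
      exact hz
    · have e3 : z ^ 2 - D * (a (H.p s) - a l) =
          (z ^ 2 - D * (a i - a l)) + D * (a i - a j) := by
        rw [f1]
        ring
      rw [e3]
      exact dvd_add hz (hd.mul_left D)

end

end Pool.Agent.Q269.SL
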